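import Pool.Agent.Formn.AbSyl

set_option autoImplicit false

/-!
# Formations of groups with abelian Sylow subgroups: the main statement
-/

namespace Pool.Agent.Formn.AbSyl

open Pool.Agent.Formn.Formation Pool.Agent.Formn.Cop

/-- An endomorphism of `A = P H` from an `H`-equivariant endomorphism of `P`. -/
theorem theta {A : Type} [Group A] (P H : Subgroup A) (hPn : P.Normal) (hPH : P ⊓ H = ⊥)
    (hsup : ∀ g : A, ∃ x ∈ P, ∃ h ∈ H, g = x * h) (ψ : P →* P) (hψ : Function.Surjective ψ)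
    (heq : ∀ h ∈ H, ∀ x : P,
      ((ψ ⟨h * x * h⁻¹, hPn.conj_mem x x.2 h⟩ : P) : A) = h * (ψ x : A) * h⁻¹) :
    ∃ θ : A →* A, Function.Surjective θ ∧ (∀ x : P, θ x = ψ x) ∧ ∀ g, θ g ∈ P → g ∈ P := by
  choose x hx h hh hg using hsup
  have uniq : ∀ (a b : P) (k l : A), k ∈ H → l ∈ H → (a : A) * k = b * l → a = b ∧ k = l := by
    intro a b k l hk hl hab
    have h1 : (b : A)⁻¹ * a = l * k⁻¹ := by
      rw [eq_mul_inv_iff_mul_eq, mul_assoc, hab, inv_mul_cancel_left]
    have h2 : (b : A)⁻¹ * a ∈ P ⊓ H := ⟨P.mul_mem (P.inv_mem b.2) a.2, by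
      rw [h1]; exact H.mul_mem hl (H.inv_mem hk)⟩
    rw [hPH, Subgroup.mem_bot] at h2
    have h3 : a = b := Subtype.ext (inv_mul_eq_one.1 h2).symm
    refine ⟨h3, ?_⟩
    rw [h3] at hab
    exact mul_left_cancel hab
  have form : ∀ (a : P) (k : A), k ∈ H →
      (ψ ⟨x ((a : A) * k), hx _⟩ : A) * h ((a : A) * k) = (ψ a : A) * k := by
    intro a k hk
    obtain ⟨e1, e2⟩ := uniq ⟨x ((a : A) * k), hx _⟩ a (h ((a : A) * k)) k (hh _) hk
      (hg ((a : A) * k)).symm
    rw [e1, e2]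
  let θ : A →* A := MonoidHom.mk' (fun g => (ψ ⟨x g, hx g⟩ : A) * h g) (by
    intro a b
    have e1 : a * b = (((⟨x a, hx a⟩ : P) * ⟨h a * x b * (h a)⁻¹, hPn.conj_mem _ (hx b) _⟩ : P) : A) *
        (h a * h b) := by
      conv_lhs => rw [hg a, hg b]
      change x a * h a * (x b * h b) = (x a * (h a * x b * (h a)⁻¹)) * (h a * h b)
      group
    have e2 := form ((⟨x a, hx a⟩ : P) * ⟨h a * x b * (h a)⁻¹, hPn.conj_mem _ (hx b) _⟩)
      (h a * h b) (H.mul_mem (hh a) (hh b))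
    rw [← e1] at e2
    rw [e2, map_mul, Subgroup.coe_mul, heq (h a) (hh a) ⟨x b, hx b⟩]
    group)
  have hθ : ∀ g, θ g = (ψ ⟨x g, hx g⟩ : A) * h g := fun g => rfl
  have hθ' : ∀ (a : P) (k : A), k ∈ H → θ ((a : A) * k) = (ψ a : A) * k := fun a k hk => form a k hk
  refine ⟨θ, ?_, ?_, ?_⟩
  · intro g
    obtain ⟨a, ha⟩ := hψ ⟨x g, hx g⟩
    refine ⟨(a : A) * h g, ?_⟩
    rw [hθ' a _ (hh g), ha]
    exact (hg g).symm
  · intro a
    have := hθ' a 1 H.one_mem
    rwa [mul_one, mul_one] at this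
  · intro g hgP
    rw [hθ] at hgP
    have h1 : h g ∈ P := by
      have := P.mul_mem (P.inv_mem (ψ ⟨x g, hx g⟩).2) hgP
      rwa [inv_mul_cancel_left] at this
    have h2 : h g ∈ P ⊓ H := ⟨h1, hh g⟩
    rw [hPH, Subgroup.mem_bot] at h2
    rw [hg g, h2, mul_one]
    exact hx g

/-- Atoms in a modular lattice. -/
theorem atom_sup {L : Type*} [Lattice L] [OrderBot L] [IsModularLattice L] {a b c : L}
    (ha : IsAtom a) (hb : IsAtom b) (hc : IsAtom c) (hac : a ≠ c) (h : c ≤ a ⊔ b) :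
    a ⊔ c = a ⊔ b := by
  have h1 : (a ⊔ b) ⊓ (a ⊔ c) = a ⊔ b ⊓ (a ⊔ c) := sup_inf_assoc_of_le b le_sup_left
  rw [inf_eq_right.2 (sup_le le_sup_left h)] at h1
  rcases hb.le_iff.1 (inf_le_left : b ⊓ (a ⊔ c) ≤ b) with h2 | h2
  · rw [h2, sup_bot_eq] at h1
    have h3 : c ≤ a := h1 ▸ le_sup_right
    rcases ha.le_iff.1 h3 with h4 | h4
    · exact absurd h4 hc.1
    · exact absurd h4.symm hac
  · rw [h2] at h1
    exact h1

/-- The action of `H` on the normal abelian subgroup `P`: the application of the abstract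
statement. -/
theorem exists_theta {A : Type} [Group A] [Finite A] (p : ℕ) (hp : p.Prime) {D : Subgroup A}
    (hDn : D.Normal) (hD : socle A = D) (hDp : ∀ x ∈ D, x ^ p = 1) (P : Subgroup A)
    (hPn : P.Normal) (hPp : IsPGroup p P) (hind : Nat.Coprime P.index p) (hDP : D ≤ P)
    (hP : ∀ x ∈ P, ∀ y ∈ P, x * y = y * x) (hco : Nat.Coprime (Nat.card P) P.index)
    (N : Fin 3 → Subgroup A) (hN : ∀ i, IsMinNormal (N i))
    (hinf : ∀ i j, i ≠ j → N i ⊓ N j = ⊥) (hsup : ∀ i j, i ≠ j → N i ⊔ N j = D) :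
    ∃ i j, i ≠ j ∧ ∃ θ : A →* A, Function.Surjective θ ∧ (N j).comap θ = N i := by
  classical
  obtain ⟨H, hH⟩ := Subgroup.exists_right_complement'_of_coprime hco
  have hPH : P ⊓ H = ⊥ := disjoint_iff.1 hH.disjoint
  have hPHsup : ∀ g : A, ∃ x ∈ P, ∃ h ∈ H, g = x * h := by
    intro g
    have h1 : g ∈ ((P ⊔ H : Subgroup A) : Set A) := by
      rw [hH.sup_eq_top]; trivial
    rw [Subgroup.normal_mul] at h1
    obtain ⟨a, ha, b, hb, rfl⟩ := h1
    exact ⟨a, ha, b, hb, rfl⟩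
  have hHc : Nat.Coprime (Nat.card H) p := by
    rw [← hH.symm.index_eq_card] 
    exact hind
  let instP : CommGroup P :=
    { (inferInstance : Group P) with mul_comm := fun x y => Subtype.ext (hP x x.2 y y.2) }
  let act : DistribMulAction H (Additive P) :=
    { smul := fun h x => Additive.ofMul ⟨(h : A) * (x.toMul : P) * (h : A)⁻¹,
        hPn.conj_mem _ (x.toMul : P).2 _⟩
      one_smul := fun x => by
        apply Additive.toMul.injective
        apply Subtype.ext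
        change (1 : A) * (x.toMul : P) * (1 : A)⁻¹ = (x.toMul : P)
        group
      mul_smul := fun g h x => by
        apply Additive.toMul.injective
        apply Subtype.ext
        change ((g : A) * (h : A)) * (x.toMul : P) * ((g : A) * (h : A))⁻¹ =
          (g : A) * ((h : A) * (x.toMul : P) * (h : A)⁻¹) * (g : A)⁻¹
        group
      smul_zero := fun h => by
        apply Additive.toMul.injective
        apply Subtype.ext
        change (h : A) * (1 : A) * (h : A)⁻¹ = 1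
        group
      smul_add := fun h x y => by
        apply Additive.toMul.injective
        apply Subtype.ext
        change (h : A) * ((x.toMul : P) * (y.toMul : P)) * (h : A)⁻¹ =
          ((h : A) * (x.toMul : P) * (h : A)⁻¹) * ((h : A) * (y.toMul : P) * (h : A)⁻¹)
        group }
  have hsm : ∀ (h : H) (x : Additive P), (((h • x).toMul : P) : A) =
      (h : A) * (x.toMul : P) * (h : A)⁻¹ := fun _ _ => rfl
  -- translation between subgroups
  let tr : Subgroup A → AddSubgroup (Additive P) := fun S => (S.subgroupOf P).toAddSubgroup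
  have htr : ∀ (S : Subgroup A) (x : Additive P), x ∈ tr S ↔ ((x.toMul : P) : A) ∈ S :=
    fun S x => Iff.rfl
  let rt : AddSubgroup (Additive P) → Subgroup A := fun S => (AddSubgroup.toSubgroup' S).map P.subtype
  have hrt : ∀ (S : AddSubgroup (Additive P)) (x : Additive P), ((x.toMul : P) : A) ∈ rt S ↔ x ∈ S := by
    intro S x
    constructor
    · rintro ⟨y, hy, hyx⟩
      have : y = x.toMul := Subtype.ext hyx
      rw [this] at hy
      exact hy
    · intro hx
      exact ⟨x.toMul, hx, rfl⟩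
  have hrtP : ∀ S, rt S ≤ P := by
    rintro S _ ⟨y, _, rfl⟩
    exact y.2
  have hrtn : ∀ S, Inv H S → (rt S).Normal := by
    intro S hS
    constructor
    intro n hn g
    obtain ⟨a, ha, b, hb, rfl⟩ := hPHsup g
    have hnP : n ∈ P := hrtP S hn
    have h1 : b * n * b⁻¹ ∈ rt S := by
      have h2 := hS ⟨b, hb⟩ (Additive.ofMul ⟨n, hnP⟩) ((hrt S _).1 hn)
      exact (hrt S _).2 h2
    have h3 : a * b * n * (a * b)⁻¹ = b * n * b⁻¹ := by
      have h4 := hP a ha (b * n * b⁻¹) (hrtP S h1)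
      calc a * b * n * (a * b)⁻¹ = (a * (b * n * b⁻¹)) * a⁻¹ := by group
        _ = ((b * n * b⁻¹) * a) * a⁻¹ := by rw [h4]
        _ = b * n * b⁻¹ := by group
    rw [h3]
    exact h1
  have htrrt : ∀ S, tr (rt S) = S := by
    intro S
    ext x
    rw [htr, hrt]
  have hrttr : ∀ S : Subgroup A, S ≤ P → rt (tr S) = S := by
    intro S hS
    ext x
    constructor
    · rintro ⟨y, hy, rfl⟩
      exact hy
    · intro hx
      exact ⟨⟨x, hS hx⟩, hx, rfl⟩
  have htri : ∀ S : Subgroup A, S.Normal → Inv H (tr S) := by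
    intro S hS h x hx
    rw [htr] at hx ⊢
    rw [hsm]
    exact hS.conj_mem _ hx _
  have hNP : ∀ i, N i ≤ P := by
    intro i
    refine le_trans ?_ hDP
    rw [← hD]
    exact le_sSup (hN i)
  have hbot : tr ⊥ = ⊥ := by
    ext x
    rw [htr, Subgroup.mem_bot, AddSubgroup.mem_bot]
    constructor
    · intro h
      exact Additive.toMul.injective (Subtype.ext h)
    · intro h
      rw [h]
      rfl
  have hrbot : rt ⊥ = ⊥ := by
    rw [← hbot, hrttr ⊥ bot_le]
  have htrinf : ∀ S T : Subgroup A, tr S ⊓ tr T = tr (S ⊓ T) := by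
    intro S T
    ext x
    rfl
  have htrsup : ∀ S T : Subgroup A, S ≤ P → T ≤ P → tr S ⊔ tr T = tr (S ⊔ T) := by
    intro S T hS hT
    change (S.subgroupOf P).toAddSubgroup ⊔ (T.subgroupOf P).toAddSubgroup = _
    rw [← OrderIso.map_sup, ← Subgroup.subgroupOf_sup hS hT]
  have hfin : Fintype H := Fintype.ofFinite H
  obtain ⟨i, j, hij, ψ, hψb, hψe, hψN⟩ := main_cop (H := H) (M := Additive P) p hp
    (fun x => by
      obtain ⟨k, hk⟩ := hPp x.toMul
      exact ⟨k, hk⟩)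
    (by rw [← Nat.card_eq_fintype_card]; exact hHc) (tr D) (htri D hDn)
    (fun x hx => by
      apply Additive.toMul.injective
      exact Subtype.ext (hDp _ hx))
    (fun S hS hSD => by
      have h1 : rt S ⊓ D = ⊥ := by
        have h2 : tr (rt S ⊓ D) = ⊥ := by
          rw [← htrinf, htrrt, hSD]
        rw [← hrttr (rt S ⊓ D) (inf_le_left.trans (hrtP S)), h2, hrbot]
      have h3 := socle_meet hD (rt S) (hrtn S hS) h1
      rw [← htrrt S, h3, hbot])
    (fun i => tr (N i)) (fun i => htri _ (hN i).1)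
    (fun i h => (hN i).2.1 (by
      have h' : tr (N i) = ⊥ := h
      rw [← hrttr (N i) (hNP i), h', hrbot]))
    (fun i j hij => by
      change tr (N i) ⊓ tr (N j) = ⊥
      rw [htrinf, hinf i j hij, hbot])
    (fun i j hij => by
      change tr (N i) ⊔ tr (N j) = tr D
      rw [htrsup _ _ (hNP i) (hNP j), hsup i j hij])
    (fun i S hS hSN => by
      have h1 : rt S ≤ N i := by
        rintro _ ⟨y, hy, rfl⟩
        exact hSN hy
      rcases (hN i).2.2 (rt S) (hrtn S hS) h1 with h2 | h2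
      · left
        rw [← htrrt S, h2, hbot]
      · right
        rw [← htrrt S, h2])
  obtain ⟨θ, hθ1, hθ2, hθ3⟩ := theta P H hPn hPH hPHsup (MonoidHom.toAdditive.symm ψ) hψb.2
    (by
      intro h hh x
      have := hψe ⟨h, hh⟩ (Additive.ofMul x)
      exact congrArg (fun z : Additive P => ((z.toMul : P) : A)) this)
  refine ⟨i, j, hij, θ, hθ1, ?_⟩
  ext g
  rw [Subgroup.mem_comap]
  constructor
  · intro hg
    have hgP : g ∈ P := hθ3 g (hNP j hg)
    have h1 := hθ2 ⟨g, hgP⟩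
    have h1' : θ g = _ := h1
    rw [h1'] at hg
    have h2 : (Additive.ofMul (⟨g, hgP⟩ : P)) ∈ (tr (N j)).comap ψ := hg
    have h3 : (tr (N j)).comap ψ = tr (N i) := hψN
    rw [h3] at h2
    exact h2
  · intro hg
    have hgP : g ∈ P := hNP i hg
    have h1 : θ g = _ := hθ2 ⟨g, hgP⟩
    rw [h1]
    have h3 : (tr (N j)).comap ψ = tr (N i) := hψN
    have h2 : (Additive.ofMul (⟨g, hgP⟩ : P)) ∈ (tr (N j)).comap ψ := by
      rw [h3]
      exact hg
    exact h2

/-- A subgroup generated by two commuting abelian normal subgroups is abelian. -/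
theorem sup_comm_of {A : Type} [Group A] {S T : Subgroup A} (hS : S.Normal) (hT : T.Normal)
    (h : S ⊓ T = ⊥) (h1 : ∀ x ∈ S, ∀ y ∈ S, x * y = y * x) (h2 : ∀ x ∈ T, ∀ y ∈ T, x * y = y * x) :
    ∀ x ∈ S ⊔ T, ∀ y ∈ S ⊔ T, x * y = y * x := by
  have hc : ∀ x ∈ S, ∀ y ∈ T, x * y = y * x := fun x hx y hy =>
    Subgroup.commute_of_normal_of_disjoint S T hS hT (disjoint_iff.2 h) x y hx hy
  have e1 : S ⊔ T ≤ Subgroup.centralizer (S : Set A) := by
    refine sup_le ?_ ?_
    · intro x hx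
      exact Subgroup.mem_centralizer_iff.2 fun y hy => h1 y hy x hx
    · intro x hx
      exact Subgroup.mem_centralizer_iff.2 fun y hy => hc y hy x hx
  have e2 : S ⊔ T ≤ Subgroup.centralizer (T : Set A) := by
    refine sup_le ?_ ?_
    · intro x hx
      exact Subgroup.mem_centralizer_iff.2 fun y hy => (hc x hx y hy).symm
    · intro x hx
      exact Subgroup.mem_centralizer_iff.2 fun y hy => h2 y hy x hx
  have e3 : S ⊔ T ≤ Subgroup.centralizer ((S ⊔ T : Subgroup A) : Set A) := by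
    refine sup_le ?_ ?_
    · intro x hx
      exact Subgroup.mem_centralizer_iff.2 fun y hy =>
        ((Subgroup.mem_centralizer_iff.1 (e1 hy)) x hx).symm
    · intro x hx
      exact Subgroup.mem_centralizer_iff.2 fun y hy =>
        ((Subgroup.mem_centralizer_iff.1 (e2 hy)) x hx).symm
  intro x hx y hy
  exact ((Subgroup.mem_centralizer_iff.1 (e3 hx)) y hy).symm

/-- The condition of the criterion holds if the Sylow `p`-subgroups of every group `G` of the
formation are abelian for all primes `p` dividing the order of the Frattini subgroup of `G`. -/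
theorem crit_of (F : Formation)
    (hF : ∀ (G : Type) [Group G] [Finite G], F.mem G → ∀ p : ℕ, p.Prime →
      p ∣ Nat.card (frattini G) → ∀ P : Sylow p G, ∀ x ∈ P, ∀ y ∈ P, x * y = y * x) :
    Crit F := by
  intro A _ _ N₁ N₂ N₃ _ _ _ hA m1 m2 m3 n12 n13 n23 hsoc hfr
  set D := socle A with hD
  -- the lattice relations
  have a1 := (isMinNormal_iff (⟨N₁, m1.1⟩ : NS A)).2 m1
  have a2 := (isMinNormal_iff (⟨N₂, m2.1⟩ : NS A)).2 m2
  have a3 := (isMinNormal_iff (⟨N₃, m3.1⟩ : NS A)).2 m3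
  have inf0 : ∀ {N N' : Subgroup A}, IsMinNormal N → IsMinNormal N' → N ≠ N' → N ⊓ N' = ⊥ := by
    intro N N' hN hN' hne
    have h1 := hN.1
    have h2 := hN'.1
    rcases hN.2.2 _ (inferInstance : (N ⊓ N').Normal) inf_le_left with h | h
    · exact h
    · rcases hN'.2.2 _ h1 (inf_eq_left.1 h) with h' | h'
      · exact absurd h' hN.2.1
      · exact absurd h' hne
  have l3 : N₃ ≤ D := le_sSup m3
  have s12 : N₁ ⊔ N₂ = D := hsoc.symm
  have s13 : N₁ ⊔ N₃ = D := by
    rw [← s12]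
    exact congrArg Subtype.val (atom_sup a1 a2 a3 (fun h => n13 (congrArg Subtype.val h))
      (show N₃ ≤ N₁ ⊔ N₂ by rw [s12]; exact l3))
  have s23 : N₂ ⊔ N₃ = D := by
    rw [← s12, sup_comm N₁]
    exact congrArg Subtype.val (atom_sup a2 a1 a3 (fun h => n23 (congrArg Subtype.val h))
      (show N₃ ≤ N₂ ⊔ N₁ by rw [sup_comm, s12]; exact l3))
  have i12 := inf0 m1 m2 n12
  have i13 := inf0 m1 m3 n13
  have i23 := inf0 m2 m3 n23
  -- `D` is elementary abelian
  have c1 := comm_of m1.1 m2.1 m3.1 i12 i13 s23 (s12 ▸ le_sup_left)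
  have c2 := comm_of m2.1 m1.1 m3.1 (inf_comm N₁ N₂ ▸ i12) i23 s13 (s12 ▸ le_sup_right)
  have cD : ∀ x ∈ D, ∀ y ∈ D, x * y = y * x := by
    rw [← s12]
    exact sup_comm_of m1.1 m2.1 i12 c1 c2
  have hDn : D.Normal := by
    rw [← s12]
    infer_instance
  obtain ⟨p, hp, hpd⟩ : ∃ p : ℕ, p.Prime ∧ p ∣ Nat.card N₁ := by
    apply Nat.exists_prime_and_dvd
    have := (Subgroup.one_lt_card_iff_ne_bot N₁).2 m1.2.1
    omega
  have hfact : Fact p.Prime := ⟨hp⟩
  let E : Subgroup A :=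
    { carrier := {x | x ∈ D ∧ x ^ p = 1}
      mul_mem' := by
        rintro x y ⟨hx, hx'⟩ ⟨hy, hy'⟩
        refine ⟨D.mul_mem hx hy, ?_⟩
        have hc : Commute x y := cD x hx y hy
        rw [hc.mul_pow, hx', hy', one_mul]
      one_mem' := ⟨D.one_mem, one_pow _⟩
      inv_mem' := by
        rintro x ⟨hx, hx'⟩
        exact ⟨D.inv_mem hx, by rw [inv_pow, hx', inv_one]⟩ }
  have hEn : E.Normal := by
    constructor
    rintro x ⟨hx, hx'⟩ g
    refine ⟨hDn.conj_mem x hx g, ?_⟩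
    rw [conj_pow, hx', mul_one, mul_inv_cancel]
  have hE1 : N₁ ≤ E := by
    obtain ⟨x, hx⟩ := exists_prime_orderOf_dvd_card' (G := N₁) p hpd
    rcases m1.2.2 (N₁ ⊓ E) inferInstance inf_le_left with h | h
    · exfalso
      have h1 : (x : A) ∈ N₁ ⊓ E := by
        refine ⟨x.2, (s12 ▸ le_sup_left : N₁ ≤ D) x.2, ?_⟩
        have := pow_orderOf_eq_one x
        rw [hx] at this
        exact congrArg Subtype.val this
      rw [h, Subgroup.mem_bot] at h1
      have h2 : x = 1 := Subtype.ext h1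
      rw [h2, orderOf_one] at hx
      exact hp.one_lt.ne hx
    · exact inf_eq_left.1 h
  have hE3 : N₃ ≤ E := by
    intro x hx
    refine ⟨l3 hx, ?_⟩
    have h1 : x ∈ ((N₁ ⊔ N₂ : Subgroup A) : Set A) := by
      rw [s12]; exact l3 hx
    rw [Subgroup.normal_mul] at h1
    obtain ⟨a, ha, b, hb, hab⟩ := h1
    have hab' : a * b = x := hab
    have hc : Commute a b := cD a ((s12 ▸ le_sup_left : N₁ ≤ D) ha) b
      ((s12 ▸ le_sup_right : N₂ ≤ D) hb)
    have h2 : x ^ p = b ^ p := by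
      rw [← hab', hc.mul_pow, (hE1 ha).2, one_mul]
    have h3 : x ^ p ∈ N₂ ⊓ N₃ := ⟨by rw [h2]; exact N₂.pow_mem hb p, N₃.pow_mem hx p⟩
    rw [i23, Subgroup.mem_bot] at h3
    exact h3
  have hDp : ∀ x ∈ D, x ^ p = 1 := by
    intro x hx
    rw [← s13] at hx
    exact (sup_le hE1 hE3 hx).2
  have hpf : p ∣ Nat.card (frattini A) :=
    hpd.trans (Subgroup.card_dvd_of_le (((s12 ▸ le_sup_left : N₁ ≤ D)).trans hfr))
  have hDpg : IsPGroup p D := fun x => ⟨1, by
    rw [pow_one]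
    exact Subtype.ext (hDp x x.2)⟩
  obtain ⟨P, hDP⟩ := hDpg.exists_le_sylow
  have hP := hF A hA p hp hpf P
  have hind : Nat.Coprime (P : Subgroup A).index p :=
    ((Nat.Prime.coprime_iff_not_dvd hp).2 P.not_dvd_index).symm
  have hPn : (P : Subgroup A).Normal :=
    sylow_normal p hp hDn hD.symm hDp (P : Subgroup A) P.isPGroup' (fun Q hQ hPQ => P.is_maximal' hQ hPQ)
      hind hDP hP
  obtain ⟨i, j, hij, θ, hθ1, hθ2⟩ := exists_theta p hp hDn hD.symm hDp (P : Subgroup A) hPn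
    P.isPGroup' hind hDP hP P.card_coprime_index ![N₁, N₂, N₃]
    (by
      intro i
      fin_cases i
      · exact m1
      · exact m2
      · exact m3)
    (by
      intro i j hij
      fin_cases i <;> fin_cases j
      · exact absurd rfl hij
      · exact i12
      · exact i13
      · exact (inf_comm N₁ N₂) ▸ i12
      · exact absurd rfl hij
      · exact i23
      · exact (inf_comm N₁ N₃) ▸ i13
      · exact (inf_comm N₂ N₃) ▸ i23
      · exact absurd rfl hij)
    (by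
      intro i j hij
      fin_cases i <;> fin_cases j
      · exact absurd rfl hij
      · exact s12
      · exact s13
      · exact (sup_comm N₁ N₂) ▸ s12
      · exact absurd rfl hij
      · exact s23
      · exact (sup_comm N₁ N₃) ▸ s13
      · exact (sup_comm N₂ N₃) ▸ s23
      · exact absurd rfl hij)
  -- conclusion
  have key : ∀ {N N' : Subgroup A} [N.Normal] [N'.Normal], N ⊓ N' = ⊥ → N'.comap θ = N →
      (gen (A ⧸ N) ⊓ gen (A ⧸ N')).mem A := by
    intro N N' _ _ h0 h1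
    have q1 : (gen (A ⧸ N)).q N := ⟨inferInstance, mem_gen _⟩
    have q2 : (gen (A ⧸ N')).q N' := ⟨inferInstance, mem_gen _⟩
    have q3 : (gen (A ⧸ N)).q N' := by
      rw [← q_comap θ hθ1, h1]
      exact q1
    have q4 : (gen (A ⧸ N')).q N := by
      rw [← h1]
      exact (q_comap θ hθ1 N').2 q2
    rw [← q_bot, ← h0]
    exact q_inf (q_inf_iff.2 ⟨q1, q4⟩) (q_inf_iff.2 ⟨q3, q2⟩)
  have e12 : gen (A ⧸ N₁) ⊓ gen (A ⧸ N₂) ≤ (gen (A ⧸ N₁) ⊓ gen (A ⧸ N₂)) ⊔
      (gen (A ⧸ N₁) ⊓ gen (A ⧸ N₃)) ⊔ (gen (A ⧸ N₂) ⊓ gen (A ⧸ N₃)) :=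
    le_sup_left.trans le_sup_left
  have e13 : gen (A ⧸ N₁) ⊓ gen (A ⧸ N₃) ≤ (gen (A ⧸ N₁) ⊓ gen (A ⧸ N₂)) ⊔
      (gen (A ⧸ N₁) ⊓ gen (A ⧸ N₃)) ⊔ (gen (A ⧸ N₂) ⊓ gen (A ⧸ N₃)) :=
    le_sup_right.trans le_sup_left
  have e23 : gen (A ⧸ N₂) ⊓ gen (A ⧸ N₃) ≤ (gen (A ⧸ N₁) ⊓ gen (A ⧸ N₂)) ⊔
      (gen (A ⧸ N₁) ⊓ gen (A ⧸ N₃)) ⊔ (gen (A ⧸ N₂) ⊓ gen (A ⧸ N₃)) := le_sup_right
  fin_cases i <;> fin_cases j
  · exact absurd rfl hij
  · exact e12 A (key i12 hθ2)
  · exact e13 A (key i13 hθ2)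
  · refine e12 A ?_
    rw [inf_comm]
    exact key ((inf_comm N₁ N₂) ▸ i12) hθ2
  · exact absurd rfl hij
  · exact e23 A (key i23 hθ2)
  · refine e13 A ?_
    rw [inf_comm]
    exact key ((inf_comm N₁ N₃) ▸ i13) hθ2
  · refine e23 A ?_
    rw [inf_comm]
    exact key ((inf_comm N₂ N₃) ▸ i23) hθ2
  · exact absurd rfl hij

end Pool.Agent.Formn.AbSyl
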