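import Mathlib

set_option autoImplicit false

/-!
# Coprime action on a finite abelian `p`-group whose socle has length two

Additive notation.  Used for the theorem on formations of groups with abelian Sylow subgroups.
-/

namespace Pool.Agent.Formn.Cop

open Finset DirectSum

/-- A homomorphism defined on the elements of order dividing `p` which does not decrease heights
extends to the whole finite abelian `p`-group. -/
theorem extend {M : Type*} [AddCommGroup M] [Finite M] (p : ℕ) (hp : p.Prime)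
    (hM : ∀ x : M, ∃ k : ℕ, p ^ k • x = 0) (D : AddSubgroup M) (hD : ∀ x, x ∈ D ↔ p • x = 0)
    (φ : D →+ M)
    (h2 : ∀ (k : ℕ) (x : D), (∃ y : M, (x : M) = p ^ k • y) → ∃ y : M, φ x = p ^ k • y) :
    ∃ ψ : M →+ M, ∀ x : D, ψ x = φ x := by
  classical
  obtain ⟨ι, _, q, hq, e, ⟨E⟩⟩ := AddCommGroup.equiv_directSum_zmod_of_finite M
  have hg : ∀ (i : ι) (z : ℕ),
      E.symm (DirectSum.of (fun i => ZMod (q i ^ e i)) i (z : ZMod (q i ^ e i))) =
      z • E.symm (DirectSum.of (fun i => ZMod (q i ^ e i)) i 1) := by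
    intro i z
    rw [← map_nsmul, ← map_nsmul]
    simp
  have hzero : ∀ (i : ι) (z : ℕ), z • E.symm (DirectSum.of (fun i => ZMod (q i ^ e i)) i 1) = 0 ↔
      q i ^ e i ∣ z := by
    intro i z
    rw [← hg, EmbeddingLike.map_eq_zero_iff, ← ZMod.natCast_eq_zero_iff]
    constructor
    · intro h
      have := congrArg (fun f => f i) h
      simpa using this
    · intro h
      rw [h, map_zero]
  have key : ∀ i : ι, ∃ y : M, (q i ^ e i) • y = 0 ∧
      ∀ (z : ℕ) (w : D), (w : M) = z • E.symm (DirectSum.of (fun i => ZMod (q i ^ e i)) i 1) →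
        φ w = z • y := by
    intro i
    have hzi := hzero i
    set g : M := E.symm (DirectSum.of (fun i => ZMod (q i ^ e i)) i 1) with hgdef
    rcases Nat.eq_zero_or_pos (e i) with he | he
    · refine ⟨0, by simp, ?_⟩
      intro z w hw
      have h0 : z • g = 0 := by
        rw [hzi, he, pow_zero]
        exact one_dvd _
      have : w = 0 := Subtype.ext (hw.trans h0)
      rw [this, map_zero, smul_zero]
    · have hqp : q i = p := by
        obtain ⟨k, hk⟩ := hM g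
        rw [hzi] at hk
        have h1 : q i ∣ p ^ k := (dvd_pow_self _ he.ne').trans hk
        exact (Nat.prime_dvd_prime_iff_eq (hq i) hp).1 ((hq i).dvd_of_dvd_pow h1)
      rw [hqp] at hzi ⊢
      have e1 : p ^ e i = p * p ^ (e i - 1) := by
        rw [← pow_succ']
        congr 1
        omega
      have hs : p ^ (e i - 1) • g ∈ D := by
        rw [hD, ← mul_nsmul', ← e1, hzi]
      obtain ⟨y, hy⟩ := h2 (e i - 1) ⟨_, hs⟩ ⟨g, rfl⟩
      refine ⟨y, ?_, ?_⟩
      · rw [e1, mul_nsmul', ← hy, ← map_nsmul]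
        have : p • (⟨p ^ (e i - 1) • g, hs⟩ : D) = 0 := Subtype.ext ((hD _).1 hs)
        rw [this, map_zero]
      · intro z w hw
        have h3 : p • (z • g) = 0 := by
          rw [← hw]
          exact (hD _).1 w.2
        rw [← mul_nsmul', hzi, e1] at h3
        obtain ⟨m, hm⟩ := Nat.dvd_of_mul_dvd_mul_left hp.pos h3
        have h4 : w = m • (⟨p ^ (e i - 1) • g, hs⟩ : D) := by
          apply Subtype.ext
          rw [hw, hm]
          change (p ^ (e i - 1) * m) • g = m • (p ^ (e i - 1) • g)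
          rw [mul_comm, mul_nsmul']
        rw [h4, map_nsmul, hy, hm, mul_comm, mul_nsmul']
  choose y hy1 hy2 using key
  let β : ∀ i, ZMod (q i ^ e i) →+ M := fun i =>
    ZMod.lift (q i ^ e i) ⟨zmultiplesHom M (y i), by
      rw [zmultiplesHom_apply, natCast_zsmul]
      exact hy1 i⟩
  have hβ : ∀ i (z : ZMod (q i ^ e i)), β i z = z.val • y i := by
    intro i z
    have : NeZero (q i ^ e i) := ⟨pow_ne_zero _ (hq i).ne_zero⟩
    have h1 : z = ((z.val : ℤ) : ZMod (q i ^ e i)) := by simp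
    conv_lhs => rw [h1]
    change ZMod.lift (q i ^ e i) ⟨zmultiplesHom M (y i), _⟩ _ = _
    rw [ZMod.lift_coe]
    change zmultiplesHom M (y i) _ = _
    rw [zmultiplesHom_apply, natCast_zsmul]
  refine ⟨(DirectSum.toAddMonoid β).comp E.toAddMonoidHom, ?_⟩
  intro x
  have hval : ∀ i, (E x i) = (((E x i).val : ℕ) : ZMod (q i ^ e i)) := by
    intro i
    have : NeZero (q i ^ e i) := ⟨pow_ne_zero _ (hq i).ne_zero⟩
    simp
  have hmem : ∀ i, (E x i).val • E.symm (DirectSum.of (fun i => ZMod (q i ^ e i)) i 1) ∈ D := by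
    intro i
    rw [← hg, ← hval, hD, ← map_nsmul, ← map_nsmul]
    have h5 : p • (x : M) = 0 := (hD _).1 x.2
    have h6 : p • (E x) i = 0 := by
      have := congrArg (fun f => f i) (congrArg E h5)
      rw [map_nsmul, map_zero] at this
      exact this
    rw [h6, map_zero, map_zero]
  have hx : x = ∑ i, (⟨_, hmem i⟩ : D) := by
    apply Subtype.ext
    rw [AddSubgroup.val_finsetSum]
    have h7 := congrArg E.symm (DirectSum.sum_univ_of (E x))
    rw [map_sum, AddEquiv.symm_apply_apply] at h7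
    refine h7.symm.trans ?_
    refine Finset.sum_congr rfl fun i _ => ?_
    change _ = (E x i).val • E.symm (DirectSum.of (fun i => ZMod (q i ^ e i)) i 1)
    rw [← hg, ← hval]
  have h8 : φ x = ∑ i, (E x i).val • y i := by
    conv_lhs => rw [hx]
    rw [map_sum]
    exact Finset.sum_congr rfl fun i _ => hy2 i _ _ rfl
  rw [h8]
  change DirectSum.toAddMonoid β (E x) = _
  conv_lhs => rw [← DirectSum.sum_univ_of (E x)]
  rw [map_sum]
  refine Finset.sum_congr rfl fun i _ => ?_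
  rw [DirectSum.toAddMonoid_of, hβ]

/-! ### Complements and projections -/

theorem compl_field {K V : Type*} [Field K] [AddCommGroup V] [Module K V] (D : AddSubgroup V)
    (hD : ∀ (c : K) (x : V), x ∈ D → c • x ∈ D) :
    ∃ Q : AddSubgroup V, D ⊓ Q = ⊥ ∧ D ⊔ Q = ⊤ := by
  let D' : Submodule K V := { D with smul_mem' := fun c x hx => hD c x hx }
  obtain ⟨Q, hQ⟩ := Submodule.exists_isCompl D'
  refine ⟨Q.toAddSubgroup, ?_, ?_⟩
  · rw [eq_bot_iff]
    rintro x ⟨h1, h2⟩
    have h3 := Submodule.disjoint_def.1 hQ.disjoint x h1 h2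
    rw [h3]
    exact AddSubgroup.zero_mem _
  · rw [eq_top_iff]
    intro x _
    have h3 : x ∈ D' ⊔ Q := by
      rw [hQ.sup_eq_top]
      exact Submodule.mem_top
    obtain ⟨a, ha, b, hb, hx⟩ := Submodule.mem_sup.1 h3
    exact AddSubgroup.mem_sup.2 ⟨a, ha, b, hb, hx⟩

theorem compl_exists {E : Type*} [AddCommGroup E] (p : ℕ) [Fact p.Prime] (h : ∀ x : E, p • x = 0)
    (D : AddSubgroup E) : ∃ Q : AddSubgroup E, D ⊓ Q = ⊥ ∧ D ⊔ Q = ⊤ := by
  let inst : Module (ZMod p) E := AddCommGroup.zmodModule h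
  exact @compl_field (ZMod p) E (ZMod.instField p) _ (AddCommGroup.zmodModule h) D
    (fun c x hx => ZMod.smul_mem (n := p) hx c)

theorem proj_unique {M : Type*} [AddCommGroup M] {A B : AddSubgroup M} (hAB : A ⊓ B = ⊥)
    {x a b : M} (ha : a ∈ A) (hb : b ∈ A) (h3 : x - a ∈ B) (h4 : x - b ∈ B) : a = b := by
  have h5 : a - b ∈ A ⊓ B := ⟨A.sub_mem ha hb, by
    have := B.sub_mem h4 h3
    rwa [sub_sub_sub_cancel_left] at this⟩
  rw [hAB, AddSubgroup.mem_bot] at h5
  exact sub_eq_zero.1 h5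

theorem proj_exists {M : Type*} [AddCommGroup M] (T A B : AddSubgroup M) (hT : T ≤ A ⊔ B)
    (hAB : A ⊓ B = ⊥) : ∃ f : T →+ M, ∀ x : T, f x ∈ A ∧ (x : M) - f x ∈ B := by
  have h1 : ∀ x : T, ∃ a : M, a ∈ A ∧ (x : M) - a ∈ B := by
    intro x
    obtain ⟨a, ha, b, hb, hx⟩ := AddSubgroup.mem_sup.1 (hT x.2)
    refine ⟨a, ha, ?_⟩
    rw [← hx, add_sub_cancel_left]
    exact hb
  choose f hf1 hf2 using h1
  refine ⟨AddMonoidHom.mk' f fun x y => ?_, fun x => ⟨hf1 x, hf2 x⟩⟩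
  refine proj_unique hAB (x := ((x + y : T) : M)) (hf1 _) (A.add_mem (hf1 x) (hf1 y)) (hf2 _) ?_
  have : ((x + y : T) : M) - (f x + f y) = ((x : M) - f x) + ((y : M) - f y) := by
    rw [AddSubgroup.coe_add]; abel
  rw [this]
  exact B.add_mem (hf2 x) (hf2 y)

/-! ### Averaging -/

section avg

variable {H : Type*} [Group H] [Fintype H] {M M' : Type*} [AddCommGroup M] [AddCommGroup M']
  [DistribMulAction H M] [DistribMulAction H M']

variable (H) in
/-- the average of a homomorphism over `H` (without the factor `1/|H|`) -/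
def avg (f : M →+ M') : M →+ M' :=
  ∑ h : H, (DistribSMul.toAddMonoidHom M' h).comp
    (f.comp (DistribSMul.toAddMonoidHom M h⁻¹))

theorem avg_apply (f : M →+ M') (x : M) : avg H f x = ∑ h : H, h • f (h⁻¹ • x) := by
  unfold avg
  rw [AddMonoidHom.finsetSum_apply]
  rfl

theorem avg_smul (f : M →+ M') (g : H) (x : M) : avg H f (g • x) = g • avg H f x := by
  rw [avg_apply, avg_apply, Finset.smul_sum]
  symm
  refine Fintype.sum_equiv (Equiv.mulLeft g) _ _ fun h => ?_
  simp only [Equiv.coe_mulLeft, mul_inv_rev, mul_smul, inv_smul_smul]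

end avg

variable {H : Type*} [Group H] [Fintype H] {M : Type*} [AddCommGroup M] [Finite M]
  [DistribMulAction H M]

variable (H) in
/-- invariant subgroups -/
def Inv (S : AddSubgroup M) : Prop := ∀ (h : H) (x : M), x ∈ S → h • x ∈ S

omit [Fintype H] [Finite M] in
theorem Inv.inf {S T : AddSubgroup M} (hS : Inv H S) (hT : Inv H T) : Inv H (S ⊓ T) :=
  fun h x hx => ⟨hS h x hx.1, hT h x hx.2⟩

omit [Fintype H] [Finite M] in
theorem Inv.sup {S T : AddSubgroup M} (hS : Inv H S) (hT : Inv H T) : Inv H (S ⊔ T) := by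
  intro h x hx
  rw [AddSubgroup.mem_sup] at hx ⊢
  obtain ⟨y, hy, z, hz, rfl⟩ := hx
  exact ⟨h • y, hS h y hy, h • z, hT h z hz, (smul_add h y z).symm⟩

omit [Finite M] in
theorem coprime_smul {p m : ℕ} (hpm : Nat.Coprime m p) {x : M} (h1 : p • x = 0)
    (h2 : m • x = 0) : x = 0 := by
  have h3 : addOrderOf x ∣ 1 := by
    rw [← hpm]
    exact Nat.dvd_gcd (addOrderOf_dvd_of_nsmul_eq_zero h2) (addOrderOf_dvd_of_nsmul_eq_zero h1)
  exact AddMonoid.addOrderOf_eq_one_iff.1 (Nat.dvd_one.1 h3)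

/-- Maschke: the elements of order dividing `p` lie in the socle `D`. -/
theorem maschke (p : ℕ) (hp : p.Prime) (hH : Nat.Coprime (Fintype.card H) p)
    (D : AddSubgroup M) (hDi : Inv H D) (hDp : ∀ x ∈ D, p • x = 0)
    (hsoc : ∀ S : AddSubgroup M, Inv H S → S ⊓ D = ⊥ → S = ⊥) (x : M) (hx : p • x = 0) :
    x ∈ D := by
  classical
  have hfact : Fact p.Prime := ⟨hp⟩
  let E : AddSubgroup M := (nsmulAddMonoidHom p : M →+ M).ker
  have hE : ∀ y : M, y ∈ E ↔ p • y = 0 := fun y => by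
    rw [AddMonoidHom.mem_ker, nsmulAddMonoidHom_apply]
  have hEi : Inv H E := by
    intro h y hy
    rw [hE] at hy ⊢
    rw [smul_comm p h y, hy, smul_zero]
  have hDE : D ≤ E := fun y hy => (hE y).2 (hDp y hy)
  let actE : DistribMulAction H E :=
    { smul := fun h y => ⟨h • (y : M), hEi h y y.2⟩
      one_smul := fun y => Subtype.ext (one_smul H (y : M))
      mul_smul := fun g h y => Subtype.ext (mul_smul g h (y : M))
      smul_zero := fun h => Subtype.ext (smul_zero h)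
      smul_add := fun h y z => Subtype.ext (smul_add h (y : M) (z : M)) }
  have hsm : ∀ (h : H) (y : E), ((h • y : E) : M) = h • (y : M) := fun _ _ => rfl
  obtain ⟨Q, hQ1, hQ2⟩ := compl_exists p (E := E) (fun y => by
    apply Subtype.ext
    have := (hE y).1 y.2
    simpa using this) (D.addSubgroupOf E)
  obtain ⟨f', hf'⟩ := proj_exists E D (Q.map E.subtype) (by
      intro y hy
      have h1 : (⟨y, hy⟩ : E) ∈ D.addSubgroupOf E ⊔ Q := by rw [hQ2]; trivial
      obtain ⟨a, ha, b, hb, hab⟩ := AddSubgroup.mem_sup.1 h1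
      exact AddSubgroup.mem_sup.2 ⟨a, ha, b, ⟨b, hb, rfl⟩, congrArg Subtype.val hab⟩) (by
      rw [eq_bot_iff]
      rintro _ ⟨h1, ⟨y, hy, rfl⟩⟩
      have h2 : y ∈ D.addSubgroupOf E ⊓ Q := ⟨h1, hy⟩
      rw [hQ1, AddSubgroup.mem_bot] at h2
      rw [h2]
      exact AddSubgroup.zero_mem _)
  have hDQ : D ⊓ Q.map E.subtype = ⊥ := by
    rw [eq_bot_iff]
    rintro _ ⟨h1, ⟨y, hy, rfl⟩⟩
    have h2 : y ∈ D.addSubgroupOf E ⊓ Q := ⟨h1, hy⟩
    rw [hQ1, AddSubgroup.mem_bot] at h2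
    rw [h2]
    exact AddSubgroup.zero_mem _
  have hf1 : ∀ y : E, f' y ∈ D := fun y => (hf' y).1
  have hf2 : ∀ y : E, (y : M) ∈ D → f' y = y := by
    intro y hy
    refine proj_unique hDQ (x := (y : M)) (hf1 y) hy (hf' y).2 ?_
    rw [sub_self]
    exact AddSubgroup.zero_mem _
  have hF1 : ∀ y : E, avg H f' y ∈ D := by
    intro y
    rw [avg_apply]
    exact D.sum_mem fun h _ => hDi h _ (hf1 _)
  have hF2 : ∀ y : E, (y : M) ∈ D → avg H f' y = Fintype.card H • (y : M) := by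
    intro y hy
    rw [avg_apply]
    have : ∀ h : H, h • f' (h⁻¹ • y) = (y : M) := by
      intro h
      rw [hf2 _ (by rw [hsm]; exact hDi _ _ hy), hsm, smul_inv_smul]
    rw [Finset.sum_congr rfl fun h _ => this h, Finset.sum_const, Finset.card_univ]
  have hK : (avg H f').ker.map E.subtype = ⊥ := by
    apply hsoc
    · rintro h _ ⟨y, hy, rfl⟩
      refine ⟨h • y, ?_, rfl⟩
      have hy' : avg H f' y = 0 := hy
      change avg H f' (h • y) = 0
      rw [avg_smul, hy', smul_zero]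
    · rw [eq_bot_iff]
      rintro _ ⟨⟨y, hy, rfl⟩, hyD⟩
      have hy' : avg H f' y = 0 := hy
      have hyD' : (y : M) ∈ D := hyD
      rw [hF2 y hyD'] at hy'
      exact (AddSubgroup.mem_bot).2 (coprime_smul hH (hDp _ hyD') hy')
  have hinj : Function.Injective (avg H f') := by
    rw [injective_iff_map_eq_zero]
    intro y hy
    have : (y : M) ∈ (avg H f').ker.map E.subtype := ⟨y, hy, rfl⟩
    rw [hK, AddSubgroup.mem_bot] at this
    exact Subtype.ext this
  have hcard : Nat.card E ≤ Nat.card D :=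
    Nat.card_le_card_of_injective (fun y : E => (⟨avg H f' y, hF1 y⟩ : D)) (fun y z hyz =>
      hinj (congrArg Subtype.val hyz))
  have hDE' : D = E := AddSubgroup.eq_of_le_of_card_ge hDE hcard
  rw [hDE']
  exact (hE x).2 hx

omit [Finite M] in
theorem mem_of_coprime {p m : ℕ} (hpm : Nat.Coprime m p) {S : AddSubgroup M} {y : M}
    (h1 : p • y = 0) (h2 : m • y ∈ S) : y ∈ S := by
  have h3 := Nat.gcd_eq_gcd_ab m p
  rw [hpm] at h3
  have h4 : y = (Nat.gcdA m p) • (m • y) + (Nat.gcdB m p) • (p • y) := by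
    conv_lhs => rw [← one_zsmul y]
    have h5 : (1 : ℤ) = (Nat.gcdA m p) * m + (Nat.gcdB m p) * p := by
      push_cast at h3
      linarith
    rw [h5, add_zsmul, mul_zsmul, mul_zsmul, natCast_zsmul, natCast_zsmul]
  rw [h4, h1, smul_zero, add_zero]
  exact S.zsmul_mem h2 _

/-- The main statement: `D = N₀ ⊕ N₁` is the socle, `N₂` a third simple submodule; two of the
three are exchanged by an automorphism. -/
theorem main_cop (p : ℕ) (hp : p.Prime) (hM : ∀ x : M, ∃ k : ℕ, p ^ k • x = 0)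
    (hH : Nat.Coprime (Fintype.card H) p) (D : AddSubgroup M) (hDi : Inv H D)
    (hDp : ∀ x ∈ D, p • x = 0)
    (hsoc : ∀ S : AddSubgroup M, Inv H S → S ⊓ D = ⊥ → S = ⊥)
    (N : Fin 3 → AddSubgroup M) (hNi : ∀ i, Inv H (N i)) (hN0 : ∀ i, N i ≠ ⊥)
    (hinf : ∀ i j, i ≠ j → N i ⊓ N j = ⊥) (hsup : ∀ i j, i ≠ j → N i ⊔ N j = D)
    (hsimple : ∀ i S, Inv H S → S ≤ N i → S = ⊥ ∨ S = N i) :
    ∃ i j, i ≠ j ∧ ∃ ψ : M →+ M, Function.Bijective ψ ∧
      (∀ (h : H) (x : M), ψ (h • x) = h • ψ x) ∧ (N j).comap ψ = N i := by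
  classical
  have hDE : ∀ x, x ∈ D ↔ p • x = 0 := fun x =>
    ⟨hDp x, fun hx => maschke p hp hH D hDi hDp hsoc x hx⟩
  have hND : ∀ i, N i ≤ D := by
    intro i
    obtain ⟨j, hj⟩ : ∃ j : Fin 3, i ≠ j := by
      fin_cases i
      · exact ⟨1, by decide⟩
      · exact ⟨0, by decide⟩
      · exact ⟨0, by decide⟩
    rw [← hsup i j hj]
    exact le_sup_left
  have hne : ∀ i j, i ≠ j → N i ≠ N j := by
    intro i j hij h
    have := hinf i j hij
    rw [← h, inf_idem] at this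
    exact hN0 i this
  have hNDne : ∀ i, N i ≠ D := by
    intro i h
    obtain ⟨j, hj⟩ : ∃ j : Fin 3, i ≠ j := by
      fin_cases i
      · exact ⟨1, by decide⟩
      · exact ⟨0, by decide⟩
      · exact ⟨0, by decide⟩
    have := hinf i j hj
    rw [h, inf_eq_right.2 (hND j)] at this
    exact hN0 j this
  -- structure of the invariant subgroups of `D`
  have L : ∀ S, Inv H S → S ≤ D → S ≠ ⊥ → S ≠ D → ∀ i, S ≠ N i → S ⊓ N i = ⊥ ∧ S ⊔ N i = D := by
    intro S hS hSD hS0 hSD' i hSi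
    obtain ⟨j, hj⟩ : ∃ j : Fin 3, i ≠ j := by
      fin_cases i
      · exact ⟨1, by decide⟩
      · exact ⟨0, by decide⟩
      · exact ⟨0, by decide⟩
    rcases hsimple i (S ⊓ N i) (hS.inf (hNi i)) inf_le_right with h1 | h1
    · refine ⟨h1, ?_⟩
      rcases hsimple j ((S ⊔ N i) ⊓ N j) ((hS.sup (hNi i)).inf (hNi j)) inf_le_right with h2 | h2
      · exfalso
        have h3 : (N i ⊔ N j) ⊓ (S ⊔ N i) = N i ⊔ N j ⊓ (S ⊔ N i) :=
          sup_inf_assoc_of_le (N j) le_sup_right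
        rw [hsup i j hj, inf_comm (N j), h2, sup_bot_eq,
          inf_eq_right.2 (sup_le hSD (hND i))] at h3
        have h4 : S ≤ N i := by rw [← h3]; exact le_sup_left
        rw [inf_eq_left.2 h4] at h1
        exact hS0 h1
      · refine le_antisymm (sup_le hSD (hND i)) ?_
        rw [← hsup i j hj]
        refine sup_le le_sup_right ?_
        rw [← h2]
        exact inf_le_left
    · exfalso
      have h2 : N i ≤ S := inf_eq_right.1 h1
      have h3 : (N i ⊔ N j) ⊓ S = N i ⊔ N j ⊓ S := sup_inf_assoc_of_le (N j) h2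
      rw [hsup i j hj, inf_eq_right.2 hSD] at h3
      rcases hsimple j (N j ⊓ S) ((hNi j).inf hS) inf_le_left with h4 | h4
      · rw [h4, sup_bot_eq] at h3
        exact hSi h3
      · rw [h4, hsup i j hj] at h3
        exact hSD' h3
  have L2 : ∀ S S', Inv H S → Inv H S' → S' ≤ D → S ≠ ⊥ → S' ≠ D → S ≤ S' → S = S' := by
    intro S S' hS hS' hSD' hS0 hne' hle
    have hSD : S ≤ D := hle.trans hSD'
    have hS'0 : S' ≠ ⊥ := fun h => hS0 (le_bot_iff.1 (h ▸ hle))
    have hSne : S ≠ D := fun h => hne' (le_antisymm hSD' (h ▸ hle))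
    obtain ⟨i, hi⟩ : ∃ i, S ≠ N i := by
      by_cases h : S = N 0
      · exact ⟨1, h ▸ hne 0 1 (by decide)⟩
      · exact ⟨0, h⟩
    obtain ⟨a1, a2⟩ := L S hS hSD hS0 hSne i hi
    have hi' : S' ≠ N i := by
      intro h
      rw [h] at hle
      rw [inf_eq_left.2 hle] at a1
      exact hS0 a1
    obtain ⟨b1, _⟩ := L S' hS' hSD' hS'0 hne' i hi'
    have h3 : (S ⊔ N i) ⊓ S' = S ⊔ N i ⊓ S' := sup_inf_assoc_of_le (N i) hle
    rw [a2, inf_comm (N i), b1, sup_bot_eq, inf_eq_right.2 hSD'] at h3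
    exact h3.symm
  -- the height filtration
  let Dk : ℕ → AddSubgroup M := fun k => D ⊓ (nsmulAddMonoidHom (p ^ k) : M →+ M).range
  have hDk : ∀ k (x : M), x ∈ Dk k ↔ x ∈ D ∧ ∃ y : M, x = p ^ k • y := by
    intro k x
    constructor
    · rintro ⟨h1, ⟨y, hy⟩⟩
      exact ⟨h1, y, hy.symm⟩
    · rintro ⟨h1, ⟨y, hy⟩⟩
      exact ⟨h1, ⟨y, hy.symm⟩⟩
  have hDki : ∀ k, Inv H (Dk k) := by
    intro k h x hx
    rw [hDk] at hx ⊢
    obtain ⟨h1, y, hy⟩ := hx
    exact ⟨hDi h x h1, h • y, by rw [hy, smul_comm]⟩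
  have hDkle : ∀ k, Dk k ≤ D := fun k => inf_le_left
  have hDkanti : ∀ k k', k ≤ k' → Dk k' ≤ Dk k := by
    intro k k' hkk x hx
    rw [hDk] at hx ⊢
    obtain ⟨h1, y, hy⟩ := hx
    obtain ⟨d, rfl⟩ := Nat.exists_eq_add_of_le hkk
    exact ⟨h1, p ^ d • y, by rw [hy, pow_add, mul_nsmul']⟩
  obtain ⟨N', hN'i, hN'D, hN'0, hN'ne, hN'⟩ : ∃ N' : AddSubgroup M, Inv H N' ∧ N' ≤ D ∧ N' ≠ ⊥ ∧
      N' ≠ D ∧ ∀ k, Dk k = ⊥ ∨ Dk k = D ∨ Dk k = N' := by
    by_cases h : ∃ k, Dk k ≠ ⊥ ∧ Dk k ≠ D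
    · obtain ⟨k, hk1, hk2⟩ := h
      refine ⟨Dk k, hDki k, hDkle k, hk1, hk2, fun k' => ?_⟩
      by_cases g1 : Dk k' = ⊥
      · exact Or.inl g1
      by_cases g2 : Dk k' = D
      · exact Or.inr (Or.inl g2)
      right; right
      rcases le_total k k' with hkk | hkk
      · exact L2 _ _ (hDki k') (hDki k) (hDkle k) g1 hk2 (hDkanti _ _ hkk)
      · exact (L2 _ _ (hDki k) (hDki k') (hDkle k') hk1 g2 (hDkanti _ _ hkk)).symm
    · push Not at h
      refine ⟨N 2, hNi 2, hND 2, hN0 2, hNDne 2, fun k => ?_⟩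
      by_cases g1 : Dk k = ⊥
      · exact Or.inl g1
      · exact Or.inr (Or.inl (h k g1))
  obtain ⟨i, j, hij, hi, hj⟩ : ∃ i j : Fin 3, i ≠ j ∧ N' ≠ N i ∧ N' ≠ N j := by
    by_cases h0 : N' = N 0
    · exact ⟨1, 2, by decide, h0 ▸ hne 0 1 (by decide), h0 ▸ hne 0 2 (by decide)⟩
    · by_cases h1 : N' = N 1
      · exact ⟨0, 2, by decide, h0, h1 ▸ hne 1 2 (by decide)⟩
      · exact ⟨0, 1, by decide, h0, h1⟩
  obtain ⟨i1, i2⟩ := L N' hN'i hN'D hN'0 hN'ne i hi
  obtain ⟨j1, j2⟩ := L N' hN'i hN'D hN'0 hN'ne j hj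
  obtain ⟨fi, hfi⟩ := proj_exists D (N i) N' (by rw [sup_comm, i2]) (by rw [inf_comm, i1])
  obtain ⟨fj, hfj⟩ := proj_exists D (N j) N' (by rw [sup_comm, j2]) (by rw [inf_comm, j1])
  rw [inf_comm] at i1 j1
  let φ : D →+ M := (D.subtype - fi) + fj
  have hφ : ∀ x : D, φ x = ((x : M) - fi x) + fj x := fun x => rfl
  have hφD : ∀ x : D, φ x ∈ D := fun x =>
    D.add_mem (hN'D (hfi x).2) (hND j (hfj x).1)
  have hφN : ∀ x : D, (x : M) ∈ N' → φ x = x := by
    intro x hx
    have e1 : fi x = 0 := proj_unique i1 (x := (x : M)) (hfi x).1 (N i).zero_mem (hfi x).2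
      (by rwa [sub_zero])
    have e2 : fj x = 0 := proj_unique j1 (x := (x : M)) (hfj x).1 (N j).zero_mem (hfj x).2
      (by rwa [sub_zero])
    rw [hφ, e1, e2, sub_zero, add_zero]
  have hφi : ∀ x : D, (x : M) ∈ N i → φ x ∈ N j := by
    intro x hx
    have e1 : fi x = x := proj_unique i1 (x := (x : M)) (hfi x).1 hx (hfi x).2
      (by rw [sub_self]; exact N'.zero_mem)
    rw [hφ, e1, sub_self, zero_add]
    exact (hfj x).1
  have hφj : ∀ x : D, φ x ∈ N j → (x : M) ∈ N i := by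
    intro x hx
    rw [hφ] at hx
    have h1 : (x : M) - fi x ∈ N j := by
      have := (N j).sub_mem hx (hfj x).1
      rwa [add_sub_cancel_right] at this
    have h2 : (x : M) - fi x ∈ N j ⊓ N' := ⟨h1, (hfi x).2⟩
    rw [j1, AddSubgroup.mem_bot, sub_eq_zero] at h2
    rw [h2]
    exact (hfi x).1
  have hφinj : ∀ x : D, φ x = 0 → x = 0 := by
    intro x hx
    have h1 : (x : M) ∈ N i := hφj x (by rw [hx]; exact (N j).zero_mem)
    have h2 : fj x = 0 := by
      have e1 : fi x = x := proj_unique i1 (x := (x : M)) (hfi x).1 h1 (hfi x).2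
        (by rw [sub_self]; exact N'.zero_mem)
      rw [hφ, e1, sub_self, zero_add] at hx
      exact hx
    have h3 : (x : M) ∈ N' := by
      have := (hfj x).2
      rwa [h2, sub_zero] at this
    have h4 : (x : M) ∈ N i ⊓ N' := ⟨h1, h3⟩
    rw [i1, AddSubgroup.mem_bot] at h4
    exact Subtype.ext h4
  have hφs : ∀ (h : H) (x : D), φ ⟨h • (x : M), hDi h x x.2⟩ = h • φ x := by
    intro h x
    have e1 : fi ⟨h • (x : M), hDi h x x.2⟩ = h • fi x := by
      refine proj_unique i1 (x := h • (x : M)) (hfi _).1 (hNi i h _ (hfi x).1)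
        (hfi ⟨h • (x : M), hDi h x x.2⟩).2 ?_
      rw [← smul_sub]
      exact hN'i h _ (hfi x).2
    have e2 : fj ⟨h • (x : M), hDi h x x.2⟩ = h • fj x := by
      refine proj_unique j1 (x := h • (x : M)) (hfj _).1 (hNi j h _ (hfj x).1)
        (hfj ⟨h • (x : M), hDi h x x.2⟩).2 ?_
      rw [← smul_sub]
      exact hN'i h _ (hfj x).2
    rw [hφ, hφ, e1, e2, smul_add, smul_sub]
  obtain ⟨ψ₀, hψ₀⟩ := extend p hp hM D hDE φ (by
    intro k x hx
    have h1 : (x : M) ∈ Dk k := (hDk k x).2 ⟨x.2, hx⟩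
    have h2 : φ x ∈ Dk k := by
      rcases hN' k with h | h | h
      · rw [h, AddSubgroup.mem_bot] at h1
        have : x = 0 := Subtype.ext h1
        rw [this, map_zero]
        exact AddSubgroup.zero_mem _
      · rw [h]
        exact hφD x
      · rw [hφN x (h ▸ h1)]
        exact h1
    exact ((hDk k _).1 h2).2)
  have hψ : ∀ x : D, avg H ψ₀ x = Fintype.card H • φ x := by
    intro x
    rw [avg_apply]
    have : ∀ h : H, h • ψ₀ (h⁻¹ • (x : M)) = φ x := by
      intro h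
      have e1 : ψ₀ (h⁻¹ • (x : M)) = φ ⟨h⁻¹ • (x : M), hDi h⁻¹ x x.2⟩ := hψ₀ ⟨_, hDi h⁻¹ x x.2⟩
      rw [e1, hφs, smul_inv_smul]
    rw [Finset.sum_congr rfl fun h _ => this h, Finset.sum_const, Finset.card_univ]
  have hinj : Function.Injective (avg H ψ₀) := by
    rw [injective_iff_map_eq_zero]
    have hker : (avg H ψ₀).ker = ⊥ := by
      apply hsoc
      · intro h x hx
        have hx' : avg H ψ₀ x = 0 := hx
        change avg H ψ₀ (h • x) = 0
        rw [avg_smul, hx', smul_zero]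
      · rw [eq_bot_iff]
        rintro x ⟨hx, hxD⟩
        have hx' : avg H ψ₀ x = 0 := hx
        have h1 := hψ ⟨x, hxD⟩
        rw [hx'] at h1
        have h2 : φ ⟨x, hxD⟩ = 0 :=
          coprime_smul hH (hDp _ (hφD _)) h1.symm
        have h3 := hφinj _ h2
        exact AddSubgroup.mem_bot.2 (congrArg Subtype.val h3)
    intro x hx
    have : x ∈ (avg H ψ₀).ker := hx
    rwa [hker, AddSubgroup.mem_bot] at this
  refine ⟨i, j, hij, avg H ψ₀, Finite.injective_iff_bijective.1 hinj, avg_smul ψ₀, ?_⟩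
  ext x
  rw [AddSubgroup.mem_comap]
  constructor
  · intro hx
    have hxD : x ∈ D := by
      rw [hDE]
      apply hinj
      rw [map_nsmul, map_zero]
      exact hDp _ (hND j hx)
    have h1 := hψ ⟨x, hxD⟩
    rw [h1] at hx
    exact hφj ⟨x, hxD⟩ (mem_of_coprime hH (hDp _ (hφD _)) hx)
  · intro hx
    rw [hψ ⟨x, hND i hx⟩]
    exact (N j).nsmul_mem (hφi _ hx) _

end Pool.Agent.Formn.Cop
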