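import Pool.Agent.Formn.Main
import Pool.Agent.Formn.Cop

set_option autoImplicit false

/-!
# Formations of groups with abelian Sylow subgroups
-/

namespace Pool.Agent.Formn.AbSyl

open Pool.Agent.Formn.Formation

/-- A nontrivial normal subgroup of a finite group contains a minimal normal subgroup. -/
theorem exists_min {A : Type} [Group A] [Finite A] (K : Subgroup A) (hK : K.Normal)
    (hK0 : K ≠ ⊥) : ∃ N : Subgroup A, IsMinNormal N ∧ N ≤ K := by
  have : Finite (NS A) := Subtype.finite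
  rcases IsAtomic.eq_bot_or_exists_atom_le (⟨K, hK⟩ : NS A) with h | ⟨N, hN, hNK⟩
  · exact absurd (congrArg Subtype.val h) hK0
  · exact ⟨N.1, (isMinNormal_iff N).1 hN, hNK⟩

/-- Every nontrivial normal subgroup meets the socle nontrivially. -/
theorem socle_meet {A : Type} [Group A] [Finite A] {D : Subgroup A} (hD : socle A = D)
    (K : Subgroup A) (hK : K.Normal) (h : K ⊓ D = ⊥) : K = ⊥ := by
  by_contra hK0
  obtain ⟨N, hN, hNK⟩ := exists_min K hK hK0
  apply hN.2.1
  rw [eq_bot_iff, ← h]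
  refine le_inf hNK ?_
  rw [← hD]
  exact le_sSup hN

/-- Transfer: central `p`-elements of `C` in the abelian Sylow subgroup are not commutators. -/
theorem transfer_lemma {C : Type} [Group C] [Finite C] (p : ℕ) (hp : p.Prime) (P : Subgroup C)
    (hP : ∀ x ∈ P, ∀ y ∈ P, x * y = y * x) (hind : Nat.Coprime P.index p) (d : C)
    (hd : ∀ g : C, g * d = d * g) (hdP : d ∈ P) (hdp : d ^ p = 1) (hdc : d ∈ commutator C) :
    d = 1 := by
  let inst : CommGroup P :=
    { (inferInstance : Group P) with mul_comm := fun x y => Subtype.ext (hP x x.2 y y.2) }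
  have hfi : P.FiniteIndex := inferInstance
  have h1 : (MonoidHom.transfer (MonoidHom.id P) : C →* P) d = 1 := by
    have := Abelianization.commutator_subset_ker (MonoidHom.transfer (MonoidHom.id P) : C →* P) hdc
    exact this
  have hkey : ∀ (k : ℕ) (g₀ : C), g₀⁻¹ * d ^ k * g₀ ∈ P → g₀⁻¹ * d ^ k * g₀ = d ^ k := by
    intro k g₀ _
    have h2 : Commute g₀ (d ^ k) := Commute.pow_right (hd g₀) k
    rw [mul_assoc, ← h2.eq, inv_mul_cancel_left]
  rw [MonoidHom.transfer_eq_pow (MonoidHom.id P) d hkey] at h1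
  have h3 : d ^ P.index = 1 := congrArg Subtype.val h1
  have h4 : orderOf d ∣ 1 := by
    rw [← hind]
    exact Nat.dvd_gcd (orderOf_dvd_of_pow_eq_one h3) (orderOf_dvd_of_pow_eq_one hdp)
  exact orderOf_eq_one_iff.1 (Nat.dvd_one.1 h4)

/-- The structure of `A`: the Sylow subgroup is normal. -/
theorem sylow_normal {A : Type} [Group A] [Finite A] (p : ℕ) (hp : p.Prime) {D : Subgroup A}
    (hDn : D.Normal) (hD : socle A = D) (hDp : ∀ x ∈ D, x ^ p = 1) (P : Subgroup A)
    (hPp : IsPGroup p P) (hPmax : ∀ Q : Subgroup A, IsPGroup p Q → P ≤ Q → Q = P)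
    (hind : Nat.Coprime P.index p) (hDP : D ≤ P)
    (hP : ∀ x ∈ P, ∀ y ∈ P, x * y = y * x) : P.Normal := by
  have hfact : Fact p.Prime := ⟨hp⟩
  set C := Subgroup.centralizer (D : Set A) with hC
  have hCn : C.Normal := inferInstance
  have hPC : P ≤ C := by
    intro x hx
    rw [hC, Subgroup.mem_centralizer_iff]
    intro y hy
    exact hP y (hDP hy) x hx
  -- `D` does not meet the commutator subgroup of `C`
  have h1 : ⁅C, C⁆ ⊓ D = ⊥ := by
    rw [eq_bot_iff]
    rintro d ⟨hd1, hd2⟩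
    have hdC : d ∈ C := hPC (hDP hd2)
    have hd3 : (⟨d, hdC⟩ : C) ∈ commutator C := by
      have : d ∈ (commutator C).map C.subtype := by
        rw [Subgroup.map_subtype_commutator]
        exact hd1
      obtain ⟨y, hy, hyd⟩ := this
      have : y = ⟨d, hdC⟩ := Subtype.ext hyd
      rwa [← this]
    have hrel : Nat.Coprime (P.subgroupOf C).index p := by
      have h2 : (P.subgroupOf C).index ∣ P.index := by
        have := Subgroup.relIndex_mul_index hPC
        exact Dvd.intro _ this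
      exact Nat.Coprime.coprime_dvd_left h2 hind
    have h3 := transfer_lemma p hp (P.subgroupOf C)
      (fun x hx y hy => Subtype.ext (hP x hx y hy)) hrel (⟨d, hdC⟩ : C)
      (fun g => Subtype.ext ((Subgroup.mem_centralizer_iff.1 g.2 d hd2).symm))
      (hDP hd2) (Subtype.ext (hDp d hd2)) hd3
    rw [Subgroup.mem_bot]
    exact congrArg Subtype.val h3
  have h2 : ⁅C, C⁆ = ⊥ := socle_meet hD _ inferInstance h1
  have hCab : ∀ x ∈ C, ∀ y ∈ C, x * y = y * x := by
    intro x hx y hy
    rw [Subgroup.commutator_eq_bot_iff_le_centralizer] at h2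
    exact (Subgroup.mem_centralizer_iff.1 (h2 hy)) x hx
  -- the `p'`-part of `C` is trivial
  let Q : Subgroup A :=
    { carrier := {x | x ∈ C ∧ ∃ m : ℕ, Nat.Coprime m p ∧ x ^ m = 1}
      mul_mem' := by
        rintro x y ⟨hx, m, hm, hxm⟩ ⟨hy, n, hn, hyn⟩
        refine ⟨C.mul_mem hx hy, m * n, Nat.Coprime.mul_left hm hn, ?_⟩
        have hc : Commute x y := hCab x hx y hy
        rw [hc.mul_pow, pow_mul, hxm, one_pow, one_mul, mul_comm m n, pow_mul, hyn, one_pow]
      one_mem' := ⟨C.one_mem, 1, Nat.coprime_one_left p, one_pow _⟩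
      inv_mem' := by
        rintro x ⟨hx, m, hm, hxm⟩
        exact ⟨C.inv_mem hx, m, hm, by rw [inv_pow, hxm, inv_one]⟩ }
  have hQn : Q.Normal := by
    constructor
    rintro x ⟨hx, m, hm, hxm⟩ g
    refine ⟨hCn.conj_mem x hx g, m, hm, ?_⟩
    rw [conj_pow, hxm, mul_one, mul_inv_cancel]
  have hQ : Q = ⊥ := by
    apply socle_meet hD Q hQn
    rw [eq_bot_iff]
    rintro x ⟨⟨_, m, hm, hxm⟩, hxD⟩
    have h4 : orderOf x ∣ 1 := by
      rw [← hm]
      exact Nat.dvd_gcd (orderOf_dvd_of_pow_eq_one hxm) (orderOf_dvd_of_pow_eq_one (hDp x hxD))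
    exact Subgroup.mem_bot.2 (orderOf_eq_one_iff.1 (Nat.dvd_one.1 h4))
  have hCp : IsPGroup p C := by
    intro x
    obtain ⟨a, m, hm, hx⟩ := Nat.exists_eq_pow_mul_and_not_dvd (n := orderOf (x : A))
      (orderOf_pos _).ne' p hp.ne_one
    refine ⟨a, ?_⟩
    have h5 : (x : A) ^ p ^ a ∈ Q := by
      refine ⟨C.pow_mem x.2 _, m, ?_, ?_⟩
      · exact ((Nat.Prime.coprime_iff_not_dvd hp).2 hm).symm
      · rw [← pow_mul, ← hx, pow_orderOf_eq_one]
    rw [hQ, Subgroup.mem_bot] at h5
    exact Subtype.ext h5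
  have := hPmax C hCp hPC
  rw [← this]
  exact hCn

end Pool.Agent.Formn.AbSyl
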