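import Pool.Agent.Formn.Defs

set_option autoImplicit false

/-!
# Formations: joins, modularity
-/

namespace Pool.Agent.Formn

namespace Formation

theorem of_surj (X : Formation) {G H : Type} [Group G] [Finite G] [Group H] [Finite H]
    (φ : G →* H) (hφ : Function.Surjective φ) (h : X.mem G) : X.mem H :=
  X.iso _ _ (QuotientGroup.quotientKerEquivOfSurjective φ hφ) (X.quot G φ.ker h)

/-- `R` is normal and `B / R` lies in `X`. -/
def q (X : Formation) {B : Type} [Group B] [Finite B] (R : Subgroup B) : Prop :=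
  ∃ _ : R.Normal, X.mem (B ⧸ R)

section

variable {X Y Z : Formation} {B : Type} [Group B] [Finite B] {R S : Subgroup B}

theorem q.normal (h : X.q R) : R.Normal := h.1

theorem q_hom {C : Type} [Group C] [Finite C] (φ : B →* C) (hφ : Function.Surjective φ) :
    X.q φ.ker ↔ X.mem C := by
  constructor
  · rintro ⟨_, h⟩
    exact X.iso _ _ (QuotientGroup.quotientKerEquivOfSurjective φ hφ) h
  · intro h
    exact ⟨inferInstance,
      X.iso _ _ (QuotientGroup.quotientKerEquivOfSurjective φ hφ).symm h⟩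

theorem q_mono (h : X.q R) (hRS : R ≤ S) (hS : S.Normal) : X.q S := by
  obtain ⟨hR, h⟩ := h
  have hS' := hS
  refine ⟨hS, ?_⟩
  have hle : R ≤ Subgroup.comap (MonoidHom.id B) S := hRS
  refine X.of_surj (QuotientGroup.map R S (MonoidHom.id B) hle) ?_ h
  intro x
  induction x using QuotientGroup.induction_on with
  | H z => exact ⟨QuotientGroup.mk z, rfl⟩

theorem q_inf (h1 : X.q R) (h2 : X.q S) : X.q (R ⊓ S) := by
  obtain ⟨hR, h1⟩ := h1
  obtain ⟨hS, h2⟩ := h2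
  exact ⟨inferInstance, X.sub B R S h1 h2⟩

theorem q_bot : X.q (⊥ : Subgroup B) ↔ X.mem B := by
  have := q_hom (X := X) (MonoidHom.id B) Function.surjective_id
  rwa [MonoidHom.ker_id] at this

theorem q_comap {C : Type} [Group C] [Finite C] (φ : B →* C) (hφ : Function.Surjective φ)
    (S : Subgroup C) : X.q (S.comap φ) ↔ X.q S := by
  constructor
  · rintro ⟨hn, h⟩
    have hS : S.Normal := by
      have : S = (S.comap φ).map φ := (Subgroup.map_comap_eq_self_of_surjective hφ S).symm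
      rw [this]
      exact hn.map φ hφ
    refine ⟨hS, ?_⟩
    have h2 := (q_hom (X := X) ((QuotientGroup.mk' S).comp φ)
      ((QuotientGroup.mk'_surjective S).comp hφ))
    rw [← MonoidHom.comap_ker, QuotientGroup.ker_mk'] at h2
    exact h2.1 ⟨hn, h⟩
  · rintro ⟨hS, h⟩
    have h2 := (q_hom (X := X) ((QuotientGroup.mk' S).comp φ)
      ((QuotientGroup.mk'_surjective S).comp hφ))
    rw [← MonoidHom.comap_ker, QuotientGroup.ker_mk'] at h2
    exact h2.2 h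

theorem q_le (hXY : X ≤ Y) (h : X.q R) : Y.q R := by
  obtain ⟨hn, h⟩ := h
  exact ⟨hn, hXY _ h⟩

theorem q_inf_iff : (X ⊓ Y).q R ↔ X.q R ∧ Y.q R := by
  constructor
  · rintro ⟨hn, h⟩
    exact ⟨⟨hn, h.1⟩, ⟨hn, h.2⟩⟩
  · rintro ⟨⟨hn, h1⟩, ⟨hn', h2⟩⟩
    exact ⟨hn, h1, h2⟩

end

/-! ### The join of two formations -/

/-- The formation of all quotients of subdirect products of a group in `X` and a group in `Y`. -/
def J (X Y : Formation) : Formation where
  mem G _ _ := ∃ (B : Type) (_ : Group B) (_ : Finite B) (R S : Subgroup B) (φ : B →* G),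
    Function.Surjective φ ∧ R ⊓ S = ⊥ ∧ X.q R ∧ Y.q S
  iso := by
    rintro G H _ _ _ _ e ⟨B, _, _, R, S, φ, h1, h2, h3, h4⟩
    exact ⟨B, inferInstance, inferInstance, R, S, e.toMonoidHom.comp φ,
      e.surjective.comp h1, h2, h3, h4⟩
  quot := by
    rintro G _ _ N _ ⟨B, _, _, R, S, φ, h1, h2, h3, h4⟩
    exact ⟨B, inferInstance, inferInstance, R, S, (QuotientGroup.mk' N).comp φ,
      (QuotientGroup.mk'_surjective N).comp h1, h2, h3, h4⟩
  sub := by
    rintro G _ _ N₁ N₂ _ _ ⟨B₁, _, _, R₁, S₁, φ₁, hs₁, hi₁, hx₁, hy₁⟩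
      ⟨B₂, _, _, R₂, S₂, φ₂, hs₂, hi₂, hx₂, hy₂⟩
    let Q := G ⧸ (N₁ ⊓ N₂)
    let β₁ : Q →* G ⧸ N₁ := QuotientGroup.map (N₁ ⊓ N₂) N₁ (MonoidHom.id G) inf_le_left
    let β₂ : Q →* G ⧸ N₂ := QuotientGroup.map (N₁ ⊓ N₂) N₂ (MonoidHom.id G) inf_le_right
    have hβ₁ : Function.Surjective β₁ := by
      intro x
      induction x using QuotientGroup.induction_on with
      | H z => exact ⟨QuotientGroup.mk z, rfl⟩
    have hβ₂ : Function.Surjective β₂ := by
      intro x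
      induction x using QuotientGroup.induction_on with
      | H z => exact ⟨QuotientGroup.mk z, rfl⟩
    have hβ : ∀ x : Q, β₁ x = 1 → β₂ x = 1 → x = 1 := by
      intro x
      induction x using QuotientGroup.induction_on with
      | H z =>
        intro h1 h2
        have h1' : (QuotientGroup.mk z : G ⧸ N₁) = 1 := h1
        have h2' : (QuotientGroup.mk z : G ⧸ N₂) = 1 := h2
        rw [QuotientGroup.eq_one_iff] at h1' h2' ⊢
        exact ⟨h1', h2'⟩
    let P : Subgroup (B₁ × B₂ × Q) :=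
      { carrier := {x | φ₁ x.1 = β₁ x.2.2 ∧ φ₂ x.2.1 = β₂ x.2.2}
        mul_mem' := by
          rintro x y ⟨hx1, hx2⟩ ⟨hy1, hy2⟩
          exact ⟨by simp only [Prod.fst_mul, Prod.snd_mul, map_mul, hx1, hy1],
            by simp only [Prod.fst_mul, Prod.snd_mul, map_mul, hx2, hy2]⟩
        one_mem' := by constructor <;> simp
        inv_mem' := by
          rintro x ⟨hx1, hx2⟩
          exact ⟨by simp only [Prod.fst_inv, Prod.snd_inv, map_inv, hx1],
            by simp only [Prod.fst_inv, Prod.snd_inv, map_inv, hx2]⟩ }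
    let p₁ : P →* B₁ := (MonoidHom.fst B₁ (B₂ × Q)).comp P.subtype
    let p₂ : P →* B₂ := ((MonoidHom.fst B₂ Q).comp (MonoidHom.snd B₁ (B₂ × Q))).comp P.subtype
    let p₃ : P →* Q := ((MonoidHom.snd B₂ Q).comp (MonoidHom.snd B₁ (B₂ × Q))).comp P.subtype
    have hp₁ : Function.Surjective p₁ := by
      intro b
      obtain ⟨x, hx⟩ := hβ₁ (φ₁ b)
      obtain ⟨c, hc⟩ := hs₂ (β₂ x)
      exact ⟨⟨(b, c, x), hx.symm, hc⟩, rfl⟩
    have hp₂ : Function.Surjective p₂ := by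
      intro c
      obtain ⟨x, hx⟩ := hβ₂ (φ₂ c)
      obtain ⟨b, hb⟩ := hs₁ (β₁ x)
      exact ⟨⟨(b, c, x), hb, hx.symm⟩, rfl⟩
    have hp₃ : Function.Surjective p₃ := by
      intro x
      obtain ⟨b, hb⟩ := hs₁ (β₁ x)
      obtain ⟨c, hc⟩ := hs₂ (β₂ x)
      exact ⟨⟨(b, c, x), hb, hc⟩, rfl⟩
    refine ⟨P, inferInstance, inferInstance, R₁.comap p₁ ⊓ R₂.comap p₂,
      S₁.comap p₁ ⊓ S₂.comap p₂, p₃, hp₃, ?_,
      q_inf ((q_comap p₁ hp₁ R₁).2 hx₁) ((q_comap p₂ hp₂ R₂).2 hx₂),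
      q_inf ((q_comap p₁ hp₁ S₁).2 hy₁) ((q_comap p₂ hp₂ S₂).2 hy₂)⟩
    rw [eq_bot_iff]
    rintro x ⟨⟨h1, h2⟩, ⟨h3, h4⟩⟩
    have e1 : p₁ x ∈ R₁ ⊓ S₁ := ⟨h1, h3⟩
    have e2 : p₂ x ∈ R₂ ⊓ S₂ := ⟨h2, h4⟩
    rw [hi₁, Subgroup.mem_bot] at e1
    rw [hi₂, Subgroup.mem_bot] at e2
    obtain ⟨⟨b, c, y⟩, hb, hc⟩ := x
    have e1' : b = 1 := e1
    have e2' : c = 1 := e2
    subst e1' e2'
    have hb' : φ₁ 1 = β₁ y := hb
    have hc' : φ₂ 1 = β₂ y := hc
    rw [map_one] at hb' hc'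
    have := hβ y hb'.symm hc'.symm
    subst this
    rw [Subgroup.mem_bot]
    rfl

theorem mem_sup {X Y : Formation} {G : Type} [Group G] [Finite G] (h : (X ⊔ Y).mem G) :
    X.mem G ∨ Y.mem G ∨
    ∃ (B : Type) (_ : Group B) (_ : Finite B) (R S : Subgroup B) (φ : B →* G),
      Function.Surjective φ ∧ R ⊓ S = ⊥ ∧ X.q R ∧ Y.q S := by
  by_cases hXe : ∃ (B : Type) (_ : Group B) (_ : Finite B), X.mem B
  · by_cases hYe : ∃ (B : Type) (_ : Group B) (_ : Finite B), Y.mem B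
    · right; right
      have htriv : ∀ (Z : Formation), (∃ (B : Type) (_ : Group B) (_ : Finite B), Z.mem B) →
          ∀ (G : Type) [Group G] [Finite G], Z.q (⊤ : Subgroup G) := by
        rintro Z ⟨B, _, _, hB⟩ G _ _
        have h1 : Z.mem PUnit := by
          refine Z.of_surj (1 : B →* PUnit) (fun x => ⟨1, Subsingleton.elim _ _⟩) hB
        have h2 := (q_hom (X := Z) (1 : G →* PUnit) (fun x => ⟨1, Subsingleton.elim _ _⟩)).2 h1
        rwa [MonoidHom.ker_one] at h2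
      have hX : X ≤ J X Y := by
        intro G _ _ hG
        exact ⟨G, inferInstance, inferInstance, ⊥, ⊤, MonoidHom.id G, Function.surjective_id,
          by simp, q_bot.2 hG, htriv Y hYe G⟩
      have hY : Y ≤ J X Y := by
        intro G _ _ hG
        exact ⟨G, inferInstance, inferInstance, ⊤, ⊥, MonoidHom.id G, Function.surjective_id,
          by simp, htriv X hXe G, q_bot.2 hG⟩
      exact (sup_le hX hY) G h
    · left
      have hYX : X ⊔ Y ≤ X := by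
        refine sup_le le_rfl ?_
        intro G _ _ hG
        exact absurd ⟨G, inferInstance, inferInstance, hG⟩ hYe
      exact hYX G h
  · right; left
    have hYX : X ⊔ Y ≤ Y := by
      refine sup_le ?_ le_rfl
      intro G _ _ hG
      exact absurd ⟨G, inferInstance, inferInstance, hG⟩ hXe
    exact hYX G h

theorem mem_sup_of {X Y : Formation} {G B : Type} [Group G] [Finite G] [Group B] [Finite B]
    {R S : Subgroup B} (φ : B →* G) (hφ : Function.Surjective φ) (hRS : R ⊓ S = ⊥) (hR : X.q R)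
    (hS : Y.q S) : (X ⊔ Y).mem G := by
  have h1 : (X ⊔ Y).q (R ⊓ S) := q_inf (q_le le_sup_left hR) (q_le le_sup_right hS)
  rw [hRS] at h1
  exact (X ⊔ Y).of_surj φ hφ (q_bot.1 h1)

end Formation

/-! ### The lattice of normal subgroups -/

/-- The normal subgroups of `B`. -/
abbrev NS (B : Type) [Group B] : Type := {N : Subgroup B // N.Normal}

instance (B : Type) [Group B] : Lattice (NS B) :=
  Subtype.lattice (fun _ _ h1 h2 => by have := h1; have := h2; infer_instance)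
    (fun _ _ h1 h2 => by have := h1; have := h2; infer_instance)

instance (B : Type) [Group B] : OrderBot (NS B) where
  bot := ⟨⊥, inferInstance⟩
  bot_le x := by
    change (⊥ : Subgroup B) ≤ x.1
    exact bot_le

theorem NS.coe_sup {B : Type} [Group B] (x y : NS B) : ((x ⊔ y : NS B) : Subgroup B) = x.1 ⊔ y.1 :=
  rfl

theorem NS.coe_inf {B : Type} [Group B] (x y : NS B) : ((x ⊓ y : NS B) : Subgroup B) = x.1 ⊓ y.1 :=
  rfl

theorem NS.coe_bot {B : Type} [Group B] : ((⊥ : NS B) : Subgroup B) = ⊥ := rfl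

instance (B : Type) [Group B] : IsModularLattice (NS B) where
  sup_inf_le_assoc_of_le := by
    rintro ⟨x, hx⟩ ⟨y, hy⟩ ⟨z, hz⟩ hxz
    have hxz' : x ≤ z := hxz
    change (x ⊔ y) ⊓ z ≤ x ⊔ y ⊓ z
    intro g hg
    obtain ⟨hg1, hg2⟩ := hg
    have h1 : g ∈ ((x ⊔ y : Subgroup B) : Set B) := hg1
    rw [Subgroup.normal_mul] at h1
    obtain ⟨a, ha, b, hb, rfl⟩ := h1
    have hb' : b ∈ z := by
      have h2 : a⁻¹ * (a * b) ∈ z := z.mul_mem (z.inv_mem (hxz' ha)) hg2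
      simpa using h2
    exact Subgroup.mul_mem_sup ha ⟨hb, hb'⟩

namespace Formation

/-! ### Passing to a quotient -/

theorem q_map {X : Formation} {B : Type} [Group B] [Finite B] {D S : Subgroup B} [D.Normal]
    (h : D ≤ S) : X.q (S.map (QuotientGroup.mk' D)) ↔ X.q S := by
  rw [← q_comap (QuotientGroup.mk' D) (QuotientGroup.mk'_surjective D), Subgroup.comap_map_eq,
    QuotientGroup.ker_mk', sup_eq_left.2 h]

theorem map_inf_eq_bot {B : Type} [Group B] {D S T : Subgroup B} [D.Normal]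
    (hS : D ≤ S) (hT : D ≤ T) (h : S ⊓ T ≤ D) :
    S.map (QuotientGroup.mk' D) ⊓ T.map (QuotientGroup.mk' D) = ⊥ := by
  apply Subgroup.comap_injective (QuotientGroup.mk'_surjective D)
  rw [Subgroup.comap_inf, Subgroup.comap_map_eq, Subgroup.comap_map_eq, QuotientGroup.ker_mk',
    sup_eq_left.2 hS, sup_eq_left.2 hT, MonoidHom.comap_bot, QuotientGroup.ker_mk']
  exact le_antisymm h (le_inf hS hT)

/-- Membership in a join, in reduced form: three normal subgroups with pairwise trivial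
intersections. -/
theorem sup_reduce {X Y : Formation} {G : Type} [Group G] [Finite G] (h : (X ⊔ Y).mem G) :
    X.mem G ∨ Y.mem G ∨
    ∃ (B : Type) (_ : Group B) (_ : Finite B) (K R S : Subgroup B),
      K ⊓ R = ⊥ ∧ K ⊓ S = ⊥ ∧ R ⊓ S = ⊥ ∧ X.q R ∧ Y.q S ∧ ∀ Z : Formation, Z.q K ↔ Z.mem G := by
  rcases mem_sup h with h | h | ⟨B, _, _, R, S, φ, hφ, hRS, hR, hS⟩
  · exact Or.inl h
  · exact Or.inr (Or.inl h)
  right; right
  let K : NS B := ⟨φ.ker, inferInstance⟩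
  let R' : NS B := ⟨R, hR.normal⟩
  let S' : NS B := ⟨S, hS.normal⟩
  have hRS' : R' ⊓ S' = ⊥ := Subtype.ext hRS
  let D : NS B := (K ⊓ R') ⊔ (K ⊓ S')
  have hDn : D.1.Normal := D.2
  let π := QuotientGroup.mk' D.1
  have hπ := QuotientGroup.mk'_surjective D.1
  have hDK : D ≤ K := sup_le inf_le_left inf_le_left
  have hDR : D ≤ R' ⊔ (K ⊓ S') := sup_le_sup_right inf_le_right _
  have hDS : D ≤ S' ⊔ (K ⊓ R') := by
    rw [show D = (K ⊓ S') ⊔ (K ⊓ R') from sup_comm _ _]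
    exact sup_le_sup_right inf_le_right _
  -- the pairwise meets
  have m1 : K ⊓ (R' ⊔ (K ⊓ S')) ≤ D := by
    have : (K ⊓ S') ⊔ R' ⊓ K = (K ⊓ S' ⊔ R') ⊓ K :=
      (sup_inf_assoc_of_le R' (inf_le_left : K ⊓ S' ≤ K)).symm
    calc K ⊓ (R' ⊔ (K ⊓ S')) = (K ⊓ S' ⊔ R') ⊓ K := by rw [inf_comm, sup_comm]
      _ = (K ⊓ S') ⊔ R' ⊓ K := this.symm
      _ ≤ D := by
        rw [inf_comm R' K, sup_comm]
  have m2 : K ⊓ (S' ⊔ (K ⊓ R')) ≤ D := by
    have : (K ⊓ R') ⊔ S' ⊓ K = (K ⊓ R' ⊔ S') ⊓ K :=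
      (sup_inf_assoc_of_le S' (inf_le_left : K ⊓ R' ≤ K)).symm
    calc K ⊓ (S' ⊔ (K ⊓ R')) = (K ⊓ R' ⊔ S') ⊓ K := by rw [inf_comm, sup_comm]
      _ = (K ⊓ R') ⊔ S' ⊓ K := this.symm
      _ ≤ D := by
        rw [inf_comm S' K]
  have m3 : (R' ⊔ (K ⊓ S')) ⊓ (S' ⊔ (K ⊓ R')) ≤ D := by
    -- `K ⊓ S' ≤ S' ⊔ (K ⊓ R')`
    have h1 : (K ⊓ S' ⊔ R') ⊓ (S' ⊔ (K ⊓ R')) = K ⊓ S' ⊔ R' ⊓ (S' ⊔ (K ⊓ R')) :=
      sup_inf_assoc_of_le R' (inf_le_right.trans le_sup_left)
    have h2 : (K ⊓ R' ⊔ S') ⊓ R' = K ⊓ R' ⊔ S' ⊓ R' := sup_inf_assoc_of_le S' inf_le_right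
    have h3 : R' ⊓ (S' ⊔ (K ⊓ R')) = K ⊓ R' := by
      rw [inf_comm, sup_comm S', h2, inf_comm S', hRS', sup_bot_eq]
    rw [sup_comm R', h1, h3, sup_comm]
  refine ⟨B ⧸ D.1, inferInstance, inferInstance, K.1.map π, (R' ⊔ (K ⊓ S')).1.map π,
    (S' ⊔ (K ⊓ R')).1.map π, map_inf_eq_bot hDK hDR m1, map_inf_eq_bot hDK hDS m2,
    map_inf_eq_bot hDR hDS m3, ?_, ?_, ?_⟩
  · exact (q_map hDR).2 (q_mono hR (le_sup_left : R' ≤ R' ⊔ (K ⊓ S')) (R' ⊔ (K ⊓ S')).2)
  · exact (q_map hDS).2 (q_mono hS (le_sup_left : S' ≤ S' ⊔ (K ⊓ R')) (S' ⊔ (K ⊓ R')).2)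
  · intro Z
    rw [q_map hDK]
    exact q_hom φ hφ

/-- The lattice of formations is modular. -/
instance : IsModularLattice Formation where
  sup_inf_le_assoc_of_le := by
    intro x y z hxz G _ _ hG
    obtain ⟨h1, h2⟩ := hG
    rcases sup_reduce h1 with h | h | ⟨B, _, _, K, R, S, hKR, hKS, hRS, hR, hS, hZ⟩
    · exact (le_sup_left : x ≤ x ⊔ y ⊓ z) G h
    · exact (le_sup_right : y ⊓ z ≤ x ⊔ y ⊓ z) G ⟨h, h2⟩
    · have hK : z.q K := (hZ z).2 h2
      have h3 : z.q (⊥ : Subgroup B) := by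
        rw [← hKR]
        exact q_inf hK (q_le hxz hR)
      have h4 : z.q S := q_mono h3 bot_le hS.normal
      have h5 : (y ⊓ z).q S := q_inf_iff.2 ⟨hS, h4⟩
      have h6 : (x ⊔ y ⊓ z).q (R ⊓ S) := q_inf (q_le le_sup_left hR) (q_le le_sup_right h5)
      rw [hRS] at h6
      exact (hZ _).1 (q_mono h6 bot_le hK.normal)

end Formation

end Pool.Agent.Formn
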