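import Mathlib

set_option autoImplicit false

/-!
# Formations of finite groups (MP_3bd419_al): definitions

Formations, the lattice of all formations, the formation generated by a group, minimal normal
subgroups and the socle.
-/

namespace Pool.Agent.Formn

/-- A formation of finite groups: a class of finite groups which is closed under isomorphisms,
quotients, and contains `G / (N₁ ∩ N₂)` whenever it contains `G / N₁` and `G / N₂`. -/
structure Formation where
  /-- membership of a finite group in the formation -/
  mem : (G : Type) → [Group G] → [Finite G] → Prop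
  iso : ∀ (G H : Type) [Group G] [Finite G] [Group H] [Finite H], (G ≃* H) → mem G → mem H
  quot : ∀ (G : Type) [Group G] [Finite G] (N : Subgroup G) [N.Normal], mem G → mem (G ⧸ N)
  sub : ∀ (G : Type) [Group G] [Finite G] (N₁ N₂ : Subgroup G) [N₁.Normal] [N₂.Normal],
    mem (G ⧸ N₁) → mem (G ⧸ N₂) → mem (G ⧸ (N₁ ⊓ N₂))

namespace Formation

@[ext]
theorem ext' {X Y : Formation} (h : ∀ (G : Type) [Group G] [Finite G], X.mem G ↔ Y.mem G) :
    X = Y := by
  cases X; cases Y
  congr
  funext G i j
  exact propext (h G)

/-- Formations are ordered by inclusion. -/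
instance : PartialOrder Formation where
  le X Y := ∀ (G : Type) [Group G] [Finite G], X.mem G → Y.mem G
  le_refl X G _ _ h := h
  le_trans X Y Z h1 h2 G _ _ h := h2 G (h1 G h)
  le_antisymm X Y h1 h2 := ext' fun G _ _ => ⟨h1 G, h2 G⟩

theorem le_def {X Y : Formation} :
    X ≤ Y ↔ ∀ (G : Type) [Group G] [Finite G], X.mem G → Y.mem G := Iff.rfl

/-- The intersection of a set of formations. -/
instance : InfSet Formation where
  sInf S :=
    { mem := fun G _ _ => ∀ X ∈ S, X.mem G
      iso := fun G H _ _ _ _ e h X hX => X.iso G H e (h X hX)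
      quot := fun G _ _ N _ h X hX => X.quot G N (h X hX)
      sub := fun G _ _ N₁ N₂ _ _ h1 h2 X hX => X.sub G N₁ N₂ (h1 X hX) (h2 X hX) }

theorem sInf_mem (S : Set Formation) (G : Type) [Group G] [Finite G] :
    (sInf S).mem G ↔ ∀ X ∈ S, X.mem G := Iff.rfl

theorem isGLB_sInf' (S : Set Formation) : IsGLB S (sInf S) := by
  constructor
  · intro X hX G _ _ h
    exact h X hX
  · intro Y hY G _ _ h X hX
    exact hY hX G h

/-- The lattice of all formations; the join of two formations is the smallest formation containing
both, the meet is the intersection. -/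
instance : CompleteLattice Formation :=
  { completeLatticeOfInf Formation isGLB_sInf' with
    inf := fun X Y =>
      { mem := fun G _ _ => X.mem G ∧ Y.mem G
        iso := fun G H _ _ _ _ e h => ⟨X.iso G H e h.1, Y.iso G H e h.2⟩
        quot := fun G _ _ N _ h => ⟨X.quot G N h.1, Y.quot G N h.2⟩
        sub := fun G _ _ N₁ N₂ _ _ h1 h2 => ⟨X.sub G N₁ N₂ h1.1 h2.1, Y.sub G N₁ N₂ h1.2 h2.2⟩ }
    inf_le_left := fun _ _ _ _ _ h => h.1
    inf_le_right := fun _ _ _ _ _ h => h.2
    le_inf := fun _ _ _ h1 h2 G _ _ h => ⟨h1 G h, h2 G h⟩ }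

theorem inf_mem (X Y : Formation) (G : Type) [Group G] [Finite G] :
    (X ⊓ Y).mem G ↔ X.mem G ∧ Y.mem G := Iff.rfl

/-- The formation generated by a finite group. -/
def gen (G : Type) [Group G] [Finite G] : Formation := sInf {X | X.mem G}

end Formation

/-- `N` is a minimal normal subgroup of `G`. -/
def IsMinNormal {G : Type} [Group G] (N : Subgroup G) : Prop :=
  N.Normal ∧ N ≠ ⊥ ∧ ∀ M : Subgroup G, M.Normal → M ≤ N → M = ⊥ ∨ M = N

/-- The socle of `G`: the subgroup generated by the minimal normal subgroups. -/
def socle (G : Type) [Group G] : Subgroup G := sSup {N | IsMinNormal N}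

end Pool.Agent.Formn
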