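import Pool.Agent.Formn.Step

set_option autoImplicit false

/-!
# Formations: the criterion for distributivity
-/

namespace Pool.Agent.Formn

open Formation

/-- The local condition. -/
def Crit (F : Formation) : Prop :=
  ∀ (A : Type) [Group A] [Finite A] (N₁ N₂ N₃ : Subgroup A) [N₁.Normal] [N₂.Normal] [N₃.Normal],
    F.mem A → IsMinNormal N₁ → IsMinNormal N₂ → IsMinNormal N₃ →
    N₁ ≠ N₂ → N₁ ≠ N₃ → N₂ ≠ N₃ → socle A = N₁ ⊔ N₂ → socle A ≤ frattini A →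
    ((gen (A ⧸ N₁) ⊓ gen (A ⧸ N₂)) ⊔ (gen (A ⧸ N₁) ⊓ gen (A ⧸ N₃)) ⊔
      (gen (A ⧸ N₂) ⊓ gen (A ⧸ N₃))).mem A

theorem mem_gen (G : Type) [Group G] [Finite G] : (gen G).mem G := fun _ hX => hX

theorem gen_le {X : Formation} {G : Type} [Group G] [Finite G] (h : X.mem G) : gen G ≤ X :=
  sInf_le h

theorem isMinNormal_iff {B : Type} [Group B] (N : NS B) : IsAtom N ↔ IsMinNormal N.1 := by
  constructor
  · intro h
    refine ⟨N.2, fun h0 => h.1 (Subtype.ext h0), fun M hM hMN => ?_⟩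
    rcases h.le_iff.1 (show (⟨M, hM⟩ : NS B) ≤ N from hMN) with h1 | h1
    · exact Or.inl (congrArg Subtype.val h1)
    · exact Or.inr (congrArg Subtype.val h1)
  · rintro ⟨_, h1, h2⟩
    refine ⟨fun h => h1 (congrArg Subtype.val h), fun M hM => ?_⟩
    rcases h2 M.1 M.2 hM.le with h | h
    · exact Subtype.ext h
    · exact absurd (Subtype.ext h) hM.ne

/-- Two normal subgroups complemented by the same subgroup have isomorphic quotients. -/
theorem mem_of_compl {X : Formation} {B : Type} [Group B] [Finite B] {M N N' : Subgroup B}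
    (hN' : N'.Normal) (h1 : M ⊓ N = ⊥) (h2 : M ⊔ N = ⊤) (h3 : M ⊓ N' = ⊥) (h4 : M ⊔ N' = ⊤)
    (h : X.q N) : X.q N' := by
  obtain ⟨hN, h⟩ := h
  have key : ∀ (K : Subgroup B) [K.Normal], M ⊓ K = ⊥ → M ⊔ K = ⊤ →
      Nonempty (M ≃* (B ⧸ K)) := by
    intro K _ hK1 hK2
    refine ⟨MulEquiv.ofBijective ((QuotientGroup.mk' K).comp M.subtype) ⟨?_, ?_⟩⟩
    · rw [← MonoidHom.ker_eq_bot_iff, eq_bot_iff]
      intro x hx
      have hx' : (x : B) ∈ K := by
        have : QuotientGroup.mk' K (x : B) = 1 := hx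
        rwa [QuotientGroup.mk'_apply, QuotientGroup.eq_one_iff] at this
      have : (x : B) ∈ M ⊓ K := ⟨x.2, hx'⟩
      rw [hK1, Subgroup.mem_bot] at this
      rw [Subgroup.mem_bot]
      exact Subtype.ext this
    · intro y
      induction y using QuotientGroup.induction_on with
      | H z =>
        have hz : z ∈ ((M ⊔ K : Subgroup B) : Set B) := by rw [hK2]; trivial
        rw [Subgroup.mul_normal] at hz
        obtain ⟨m, hm, k, hk, rfl⟩ := hz
        refine ⟨⟨m, hm⟩, ?_⟩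
        change (QuotientGroup.mk m : B ⧸ K) = QuotientGroup.mk (m * k)
        rw [QuotientGroup.eq]
        simpa using hk
  obtain ⟨e1⟩ := key N h1 h2
  obtain ⟨e2⟩ := key N' h3 h4
  exact ⟨hN', X.iso _ _ (e1.symm.trans e2) h⟩

/-- A maximal subgroup not containing an abelian minimal normal subgroup complements it. -/
theorem compl_of_coatom {B : Type} [Group B] {M N : Subgroup B} (hM : IsCoatom M)
    (hN : IsMinNormal N) (hab : ∀ x ∈ N, ∀ y ∈ N, x * y = y * x) (h : ¬ N ≤ M) :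
    M ⊓ N = ⊥ ∧ M ⊔ N = ⊤ := by
  have hNn := hN.1
  have h2 : M ⊔ N = ⊤ := by
    rcases hM.le_iff.1 (le_sup_left : M ≤ M ⊔ N) with h' | h'
    · exact h'
    · exact absurd (sup_eq_left.1 h') h
  refine ⟨?_, h2⟩
  have hn : (M ⊓ N).Normal := by
    constructor
    rintro x ⟨hx1, hx2⟩ g
    have hg : g ∈ ((M ⊔ N : Subgroup B) : Set B) := by rw [h2]; trivial
    rw [Subgroup.mul_normal] at hg
    obtain ⟨m, hm, k, hk, rfl⟩ := hg
    have e : m * k * x * (m * k)⁻¹ = m * x * m⁻¹ := by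
      have := hab k hk x hx2
      calc m * k * x * (m * k)⁻¹ = m * (k * x) * (m * k)⁻¹ := by group
        _ = m * (x * k) * (m * k)⁻¹ := by rw [this]
        _ = m * x * m⁻¹ := by group
    change m * k * x * (m * k)⁻¹ ∈ M ⊓ N
    rw [e]
    exact ⟨M.mul_mem (M.mul_mem hm hx1) (M.inv_mem hm), hNn.conj_mem x hx2 m⟩
  rcases hN.2.2 _ hn inf_le_right with h' | h'
  · exact h'
  · exact absurd (h' ▸ inf_le_left) h

/-- A normal subgroup commuting with two subgroups generating a group which contains it is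
abelian. -/
theorem comm_of {B : Type} [Group B] {S T U D : Subgroup B} (hS : S.Normal) (hT : T.Normal)
    (hU : U.Normal) (h1 : S ⊓ T = ⊥) (h2 : S ⊓ U = ⊥) (h3 : T ⊔ U = D) (h4 : S ≤ D) :
    ∀ x ∈ S, ∀ y ∈ S, x * y = y * x := by
  intro x hx y hy
  have e1 : T ≤ Subgroup.centralizer (S : Set B) := by
    intro t ht
    rw [Subgroup.mem_centralizer_iff]
    intro s hs
    exact (Subgroup.commute_of_normal_of_disjoint S T hS hT (disjoint_iff.2 h1) s t hs ht)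
  have e2 : U ≤ Subgroup.centralizer (S : Set B) := by
    intro t ht
    rw [Subgroup.mem_centralizer_iff]
    intro s hs
    exact (Subgroup.commute_of_normal_of_disjoint S U hS hU (disjoint_iff.2 h2) s t hs ht)
  have e3 : S ≤ Subgroup.centralizer (S : Set B) := h4.trans (h3 ▸ sup_le e1 e2)
  exact (Subgroup.mem_centralizer_iff.1 (e3 hy)) x hx

theorem main_ind (F H0 H1 H2 H3 : Formation) (hF : Crit F) (hF1 : H1 ≤ F) (hF2 : H2 ≤ F)
    (h01 : H0 ≤ H1) (h02 : H0 ≤ H2) (h03 : H0 ≤ H3)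
    (h12 : H1 ⊓ H2 ≤ H0) (h13 : H1 ⊓ H3 ≤ H0) (h23 : H2 ⊓ H3 ≤ H0) :
    ∀ (n : ℕ) (B : Type) [Group B] [Finite B], Nat.card B = n → ∀ R1 R2 R3 : Subgroup B,
      R1 ⊓ R2 = ⊥ → R1 ⊓ R3 = ⊥ → R2 ⊓ R3 = ⊥ → H1.q R1 → H2.q R2 → H3.q R3 → H0.mem B := by
  intro n
  induction n using Nat.strong_induction_on with
  | _ n ih =>
  intro B _ _ hn R1 R2 R3 i12 i13 i23 r1 r2 r3
  rw [← q_bot]
  have hstep := lat_step (N := NS B) (fun R => H0.q R.1) (fun R => H1.q R.1) (fun R => H2.q R.1)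
    (fun R => H3.q R.1) (fun R S h hR => q_mono hR h S.2) (fun R S h hR => q_mono hR h S.2)
    (fun R S h hR => q_mono hR h S.2) (fun R S hR hS => q_inf hR hS)
    (fun R S hR hS => q_inf hR hS) (fun R S hR hS => q_inf hR hS)
    (fun R S hR hS => q_inf hR hS) (fun R h => q_le h01 h) (fun R h => q_le h02 h)
    (fun R h => q_le h03 h) (fun R h h' => q_le h12 (q_inf_iff.2 ⟨h, h'⟩))
    (fun R h h' => q_le h13 (q_inf_iff.2 ⟨h, h'⟩)) (fun R h h' => q_le h23 (q_inf_iff.2 ⟨h, h'⟩))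
    ?_ ⟨R1, r1.normal⟩ ⟨R2, r2.normal⟩ ⟨R3, r3.normal⟩ (Subtype.ext i12) (Subtype.ext i13)
    (Subtype.ext i23) r1 r2 r3
  · rcases hstep with h | ⟨S, T2, T3, D, aS, aT2, aT3, j1, j2, j3, k1, k2, k3, pS, pT2, pT3, hU⟩
    · exact h
    have mS := (isMinNormal_iff S).1 aS
    have mT2 := (isMinNormal_iff T2).1 aT2
    have mT3 := (isMinNormal_iff T3).1 aT3
    have j1' : S.1 ⊔ T2.1 = D.1 := congrArg Subtype.val j1
    have j2' : S.1 ⊔ T3.1 = D.1 := congrArg Subtype.val j2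
    have j3' : T2.1 ⊔ T3.1 = D.1 := congrArg Subtype.val j3
    have k1' : S.1 ⊓ T2.1 = ⊥ := congrArg Subtype.val k1
    have k2' : S.1 ⊓ T3.1 = ⊥ := congrArg Subtype.val k2
    have k3' : T2.1 ⊓ T3.1 = ⊥ := congrArg Subtype.val k3
    have ne : ∀ {x y : NS B}, IsAtom x → x.1 ⊓ y.1 = ⊥ → x.1 ≠ y.1 := by
      intro x y hx hxy h
      rw [← h, inf_idem] at hxy
      exact hx.1 (Subtype.ext hxy)
    have hSn := S.2
    have hT2n := T2.2
    have hT3n := T3.2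
    by_cases hfr : D.1 ≤ frattini B
    · have hsoc : socle B = S.1 ⊔ T2.1 := by
        rw [j1']
        refine le_antisymm (sSup_le ?_) ?_
        · intro N hN
          exact hU ⟨N, hN.1⟩ ((isMinNormal_iff _).2 hN)
        · rw [← j1']
          exact sup_le (le_sSup mS) (le_sSup mT2)
      have hBF : F.mem B := by
        rw [← q_bot, ← k1']
        exact q_inf (q_le hF1 pS) (q_le hF2 pT2)
      have hcr := hF B S.1 T2.1 T3.1 hBF mS mT2 mT3 (ne aS k1') (ne aS k2') (ne aT2 k3') hsoc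
        (by rw [hsoc, j1']; exact hfr)
      rw [q_bot]
      obtain ⟨_, pS⟩ := pS
      obtain ⟨_, pT2⟩ := pT2
      obtain ⟨_, pT3⟩ := pT3
      have g1 := gen_le pS
      have g2 := gen_le pT2
      have g3 := gen_le pT3
      exact (sup_le (sup_le ((inf_le_inf g1 g2).trans h12) ((inf_le_inf g1 g3).trans h13))
        ((inf_le_inf g2 g3).trans h23)) B hcr
    · -- a maximal subgroup not containing `D`
      have hM : ∃ M : Subgroup B, IsCoatom M ∧ ¬ D.1 ≤ M := by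
        by_contra hcon
        push Not at hcon
        apply hfr
        unfold frattini Order.radical
        exact le_iInf₂ fun M hM => hcon M hM
      obtain ⟨M, hM, hDM⟩ := hM
      have abS := comm_of hSn hT2n hT3n k1' k2' j3' (j1' ▸ le_sup_left)
      have abT2 := comm_of hT2n hSn hT3n (inf_comm S.1 T2.1 ▸ k1') k3' j2' (j1' ▸ le_sup_right)
      have abT3 := comm_of hT3n hSn hT2n (inf_comm S.1 T3.1 ▸ k2') (inf_comm T2.1 T3.1 ▸ k3') j1'
        (j2' ▸ le_sup_right)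
      by_cases hSM : S.1 ≤ M
      · have n2 : ¬ T2.1 ≤ M := fun h => hDM (j1' ▸ sup_le hSM h)
        have n3 : ¬ T3.1 ≤ M := fun h => hDM (j2' ▸ sup_le hSM h)
        obtain ⟨a1, a2⟩ := compl_of_coatom hM mT2 abT2 n2
        obtain ⟨b1, b2⟩ := compl_of_coatom hM mT3 abT3 n3
        have e2 : H0.q T2.1 := q_le h23 (q_inf_iff.2 ⟨pT2, mem_of_compl hT2n b1 b2 a1 a2 pT3⟩)
        have e3 : H0.q T3.1 := q_le h23 (q_inf_iff.2 ⟨mem_of_compl hT3n a1 a2 b1 b2 pT2, pT3⟩)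
        rw [← k3']
        exact q_inf e2 e3
      · obtain ⟨s1, s2⟩ := compl_of_coatom hM mS abS hSM
        by_cases hT2M : T2.1 ≤ M
        · have n3 : ¬ T3.1 ≤ M := fun h => hDM (j3' ▸ sup_le hT2M h)
          obtain ⟨b1, b2⟩ := compl_of_coatom hM mT3 abT3 n3
          have e2 : H0.q S.1 := q_le h13 (q_inf_iff.2 ⟨pS, mem_of_compl hSn b1 b2 s1 s2 pT3⟩)
          have e3 : H0.q T3.1 := q_le h13 (q_inf_iff.2 ⟨mem_of_compl hT3n s1 s2 b1 b2 pS, pT3⟩)
          rw [← k2']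
          exact q_inf e2 e3
        · obtain ⟨b1, b2⟩ := compl_of_coatom hM mT2 abT2 hT2M
          have e2 : H0.q S.1 := q_le h12 (q_inf_iff.2 ⟨pS, mem_of_compl hSn b1 b2 s1 s2 pT2⟩)
          have e3 : H0.q T2.1 := q_le h12 (q_inf_iff.2 ⟨mem_of_compl hT2n s1 s2 b1 b2 pS, pT2⟩)
          rw [← k1']
          exact q_inf e2 e3
  · -- the induction hypothesis
    intro D S1 S2 S3 hD d12 d13 d23 s1 s2 s3
    have hDn := D.2
    have l1 : D ≤ S1 := d12 ▸ inf_le_left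
    have l2 : D ≤ S2 := d12 ▸ inf_le_right
    have l3 : D ≤ S3 := d13 ▸ inf_le_right
    have hcard : Nat.card (B ⧸ D.1) < n := by
      rw [← hn]
      have h1 : Nat.card B = Nat.card (B ⧸ D.1) * Nat.card D.1 :=
        Subgroup.card_eq_card_quotient_mul_card_subgroup D.1
      have h2 : 1 < Nat.card D.1 := by
        rw [Subgroup.one_lt_card_iff_ne_bot]
        exact fun h => hD (Subtype.ext h)
      have h3 : 0 < Nat.card (B ⧸ D.1) := Nat.card_pos
      rw [h1]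
      nlinarith
    have := ih _ hcard (B ⧸ D.1) rfl (S1.1.map (QuotientGroup.mk' D.1))
      (S2.1.map (QuotientGroup.mk' D.1)) (S3.1.map (QuotientGroup.mk' D.1))
      (map_inf_eq_bot l1 l2 (le_of_eq (congrArg Subtype.val d12)))
      (map_inf_eq_bot l1 l3 (le_of_eq (congrArg Subtype.val d13)))
      (map_inf_eq_bot l2 l3 (le_of_eq (congrArg Subtype.val d23)))
      ((q_map l1).2 s1) ((q_map l2).2 s2) ((q_map l3).2 s3)
    exact ⟨D.2, this⟩

/-- Distributivity of the lattice of subformations, spelled out. -/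
theorem crit_iff (F : Formation) :
    (∀ X Y Z : Formation, X ≤ F → Y ≤ F → Z ≤ F → X ⊓ (Y ⊔ Z) = (X ⊓ Y) ⊔ (X ⊓ Z)) ↔ Crit F := by
  constructor
  · intro hdist A _ _ N₁ N₂ N₃ _ _ _ hA m1 m2 m3 n12 n13 n23 _ _
    have inf0 : ∀ {N N' : Subgroup A}, IsMinNormal N → IsMinNormal N' → N ≠ N' → N ⊓ N' = ⊥ := by
      intro N N' hN hN' hne
      have h1 := hN.1
      have h2 := hN'.1
      rcases hN.2.2 _ (inferInstance : (N ⊓ N').Normal) inf_le_left with h | h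
      · exact h
      · rcases hN'.2.2 _ h1 (inf_eq_left.1 h) with h' | h'
        · exact absurd h' hN.2.1
        · exact absurd h' hne
    set X := gen (A ⧸ N₁) with hX
    set Y := gen (A ⧸ N₂) with hY
    set Z := gen (A ⧸ N₃) with hZ
    have lX : X ≤ F := gen_le (F.quot A N₁ hA)
    have lY : Y ≤ F := gen_le (F.quot A N₂ hA)
    have lZ : Z ≤ F := gen_le (F.quot A N₃ hA)
    have qX : X.q N₁ := ⟨inferInstance, mem_gen _⟩
    have qY : Y.q N₂ := ⟨inferInstance, mem_gen _⟩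
    have qZ : Z.q N₃ := ⟨inferInstance, mem_gen _⟩
    have a1 : (X ⊔ Y).mem A :=
      mem_sup_of (MonoidHom.id A) Function.surjective_id (inf0 m1 m2 n12) qX qY
    have a2 : (X ⊔ Z).mem A :=
      mem_sup_of (MonoidHom.id A) Function.surjective_id (inf0 m1 m3 n13) qX qZ
    have a3 : (Y ⊔ Z).mem A :=
      mem_sup_of (MonoidHom.id A) Function.surjective_id (inf0 m2 m3 n23) qY qZ
    have lXY : X ⊔ Y ≤ F := sup_le lX lY
    have e1 : (X ⊔ Y) ⊓ (X ⊔ Z) = X ⊔ (Y ⊓ Z) := by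
      rw [hdist _ _ _ lXY lX lZ, inf_comm (X ⊔ Y) X, inf_sup_self, inf_comm (X ⊔ Y) Z,
        hdist _ _ _ lZ lX lY, ← sup_assoc, inf_comm Z X, sup_inf_self, inf_comm Z Y]
    have e2 : (Y ⊔ Z) ⊓ (X ⊔ (Y ⊓ Z)) = (Y ⊔ Z) ⊓ X ⊔ (Y ⊔ Z) ⊓ (Y ⊓ Z) :=
      hdist _ _ _ (sup_le lY lZ) lX (inf_le_left.trans lY)
    have e3 : (Y ⊔ Z) ⊓ X = X ⊓ Y ⊔ X ⊓ Z := by
      rw [inf_comm, hdist _ _ _ lX lY lZ]
    have : ((Y ⊔ Z) ⊓ (X ⊔ (Y ⊓ Z))).mem A := by
      rw [← e1]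
      exact ⟨a3, a1, a2⟩
    rw [e2, e3] at this
    exact (sup_le_sup_left (inf_le_right : (Y ⊔ Z) ⊓ (Y ⊓ Z) ≤ Y ⊓ Z) _) A this
  · intro hF x y z hx hy hz
    refine le_antisymm ?_ (sup_le (inf_le_inf_left _ le_sup_left) (inf_le_inf_left _ le_sup_right))
    intro G _ _ hG
    obtain ⟨hG1, hG2⟩ := hG
    rcases sup_reduce hG2 with h | h | ⟨B, _, _, K, R, S, hKR, hKS, hRS, hR, hS, hZ⟩
    · exact (le_sup_left : x ⊓ y ≤ x ⊓ y ⊔ x ⊓ z) G ⟨hG1, h⟩
    · exact (le_sup_right : x ⊓ z ≤ x ⊓ y ⊔ x ⊓ z) G ⟨hG1, h⟩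
    set d := x ⊓ y ⊔ x ⊓ z ⊔ y ⊓ z with hd
    have key : ∀ a b c : Formation, a ⊓ b ⊔ a ⊓ c ⊔ b ⊓ c = d → (a ⊔ d) ⊓ (b ⊔ d) ≤ d := by
      intro a b c habc
      have e1 : (d ⊔ a) ⊓ (b ⊔ d) = d ⊔ a ⊓ (b ⊔ d) := sup_inf_assoc_of_le a le_sup_right
      have e2 : b ⊔ d ≤ b ⊔ a ⊓ c := by
        rw [← habc]
        refine sup_le le_sup_left (sup_le (sup_le ?_ le_sup_right) ?_)
        · exact inf_le_right.trans le_sup_left
        · exact inf_le_left.trans le_sup_left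
      have e3 : (a ⊓ c ⊔ b) ⊓ a = a ⊓ c ⊔ b ⊓ a := sup_inf_assoc_of_le b inf_le_left
      rw [sup_comm a, e1]
      refine sup_le le_rfl ?_
      calc a ⊓ (b ⊔ d) ≤ a ⊓ (b ⊔ a ⊓ c) := inf_le_inf_left _ e2
        _ = a ⊓ c ⊔ b ⊓ a := by rw [inf_comm, sup_comm b, e3]
        _ ≤ d := by
          rw [← habc, inf_comm b a]
          refine sup_le ?_ ?_
          · exact le_sup_right.trans le_sup_left
          · exact le_sup_left.trans le_sup_left
    have hdF : d ≤ F := sup_le (sup_le (inf_le_left.trans hx) (inf_le_left.trans hx))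
      (inf_le_left.trans hy)
    have hdB : d.mem B := by
      refine main_ind F d (x ⊔ d) (y ⊔ d) (z ⊔ d) hF (sup_le hx hdF) (sup_le hy hdF)
        le_sup_right le_sup_right le_sup_right (key x y z rfl) (key x z y ?_) (key y z x ?_)
        (Nat.card B) B rfl K R S hKR hKS hRS (q_le le_sup_left ((hZ x).2 hG1))
        (q_le le_sup_left hR) (q_le le_sup_left hS)
      · rw [hd, inf_comm z y, sup_comm (x ⊓ z)]
      · rw [hd, inf_comm y x, inf_comm z x]
        rw [sup_comm (y ⊓ z), sup_assoc, sup_comm (y ⊓ z), ← sup_assoc]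
    have hdG : d.mem G := by
      rw [← hZ]
      exact q_mono (q_bot.2 hdB) bot_le ((hZ x).2 hG1).normal
    have e4 : (x ⊓ y ⊔ x ⊓ z ⊔ y ⊓ z) ⊓ x = x ⊓ y ⊔ x ⊓ z ⊔ y ⊓ z ⊓ x :=
      sup_inf_assoc_of_le _ (sup_le inf_le_left inf_le_left)
    have e5 : d ⊓ x ≤ x ⊓ y ⊔ x ⊓ z := by
      rw [hd, e4]
      refine sup_le le_rfl ?_
      exact (le_inf inf_le_right (inf_le_left.trans inf_le_left)).trans le_sup_left
    exact e5 G ⟨hdG, hG1⟩

end Pool.Agent.Formn
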