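import Pool.Agent.Formn.Basic

set_option autoImplicit false

/-!
# Formations: the inductive step in the lattice of normal subgroups
-/

namespace Pool.Agent.Formn

/-- If `a ⊔ b ≤ D`, `a ⊓ b = ⊥` and `U ⊓ D = ⊥` then `(a ⊔ U) ⊓ (b ⊔ U) = U`. -/
theorem lat_aux {N : Type*} [Lattice N] [IsModularLattice N] [OrderBot N] {a b D U : N}
    (ha : a ≤ D) (hb : b ≤ D) (hab : a ⊓ b = ⊥) (hU : U ⊓ D = ⊥) :
    (a ⊔ U) ⊓ (b ⊔ U) = U := by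
  have h1 : (U ⊔ a) ⊓ (b ⊔ U) = U ⊔ a ⊓ (b ⊔ U) := sup_inf_assoc_of_le a le_sup_right
  have h2 : (b ⊔ U) ⊓ D = b ⊔ U ⊓ D := sup_inf_assoc_of_le U hb
  have h3 : a ⊓ (b ⊔ U) ≤ ⊥ := by
    rw [← hab]
    refine le_inf inf_le_left ?_
    calc a ⊓ (b ⊔ U) ≤ D ⊓ (b ⊔ U) := inf_le_inf_right _ ha
      _ = b := by rw [inf_comm, h2, hU, sup_bot_eq]
      _ ≤ b := le_rfl
  rw [sup_comm a, h1, le_bot_iff.1 h3, sup_bot_eq]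

theorem lat_step {N : Type*} [Lattice N] [IsModularLattice N] [OrderBot N] [IsAtomic N]
    (p0 p1 p2 p3 : N → Prop)
    (m1 : ∀ R S, R ≤ S → p1 R → p1 S) (m2 : ∀ R S, R ≤ S → p2 R → p2 S)
    (m3 : ∀ R S, R ≤ S → p3 R → p3 S)
    (i0 : ∀ R S, p0 R → p0 S → p0 (R ⊓ S)) (i1 : ∀ R S, p1 R → p1 S → p1 (R ⊓ S))
    (i2 : ∀ R S, p2 R → p2 S → p2 (R ⊓ S)) (i3 : ∀ R S, p3 R → p3 S → p3 (R ⊓ S))
    (z1 : ∀ R, p0 R → p1 R) (z2 : ∀ R, p0 R → p2 R) (z3 : ∀ R, p0 R → p3 R)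
    (c12 : ∀ R, p1 R → p2 R → p0 R) (c13 : ∀ R, p1 R → p3 R → p0 R)
    (c23 : ∀ R, p2 R → p3 R → p0 R)
    (IH : ∀ D S1 S2 S3, D ≠ ⊥ → S1 ⊓ S2 = D → S1 ⊓ S3 = D → S2 ⊓ S3 = D →
      p1 S1 → p2 S2 → p3 S3 → p0 D)
    (R1 R2 R3 : N) (h12 : R1 ⊓ R2 = ⊥) (h13 : R1 ⊓ R3 = ⊥) (h23 : R2 ⊓ R3 = ⊥)
    (r1 : p1 R1) (r2 : p2 R2) (r3 : p3 R3) :
    p0 ⊥ ∨ ∃ S T2 T3 D, IsAtom S ∧ IsAtom T2 ∧ IsAtom T3 ∧ S ⊔ T2 = D ∧ S ⊔ T3 = D ∧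
      T2 ⊔ T3 = D ∧ S ⊓ T2 = ⊥ ∧ S ⊓ T3 = ⊥ ∧ T2 ⊓ T3 = ⊥ ∧ p1 S ∧ p2 T2 ∧ p3 T3 ∧
      ∀ U, IsAtom U → U ≤ D := by
  rcases IsAtomic.eq_bot_or_exists_atom_le R1 with hR1 | ⟨S, hS, hSR⟩
  · left
    subst hR1
    have e2 : p0 R2 := c12 _ (m1 _ _ bot_le r1) r2
    have e3 : p0 R3 := c13 _ (m1 _ _ bot_le r1) r3
    have := i0 _ _ e2 e3
    rwa [h23] at this
  set T2 := R2 ⊓ (R3 ⊔ S) with hT2
  set T3 := R3 ⊓ (R2 ⊔ S) with hT3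
  set D := (R2 ⊔ S) ⊓ (R3 ⊔ S) with hD
  have hST2 : S ⊔ T2 = D := by
    have := inf_sup_assoc_of_le R2 (le_sup_right : S ≤ R3 ⊔ S)
    rw [sup_comm, hT2, inf_comm R2, this, hD, inf_comm]
  have hST3 : S ⊔ T3 = D := by
    have := inf_sup_assoc_of_le R3 (le_sup_right : S ≤ R2 ⊔ S)
    rw [sup_comm, hT3, inf_comm R3, this, hD]
  have hSD : S ≤ D := le_inf le_sup_right le_sup_right
  have hDne : D ≠ ⊥ := fun h => hS.1 (le_bot_iff.1 (h ▸ hSD))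
  have hSR2 : S ⊓ R2 = ⊥ := le_bot_iff.1 (h12 ▸ inf_le_inf_right _ hSR)
  have hSR3 : S ⊓ R3 = ⊥ := le_bot_iff.1 (h13 ▸ inf_le_inf_right _ hSR)
  have hp0D : p0 D := by
    refine IH D (R1 ⊔ D) (R2 ⊔ S) (R3 ⊔ S) hDne ?_ ?_ rfl (m1 _ _ le_sup_left r1)
      (m2 _ _ le_sup_left r2) (m3 _ _ le_sup_left r3)
    · have e1 : (D ⊔ R1) ⊓ (R2 ⊔ S) = D ⊔ R1 ⊓ (R2 ⊔ S) := sup_inf_assoc_of_le R1 inf_le_left
      have e2 : (S ⊔ R2) ⊓ R1 = S ⊔ R2 ⊓ R1 := sup_inf_assoc_of_le R2 hSR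
      rw [sup_comm R1, e1, inf_comm R1, sup_comm R2, e2, inf_comm R2, h12, sup_bot_eq]
      exact sup_eq_left.2 hSD
    · have e1 : (D ⊔ R1) ⊓ (R3 ⊔ S) = D ⊔ R1 ⊓ (R3 ⊔ S) := sup_inf_assoc_of_le R1 inf_le_right
      have e2 : (S ⊔ R3) ⊓ R1 = S ⊔ R3 ⊓ R1 := sup_inf_assoc_of_le R3 hSR
      rw [sup_comm R1, e1, inf_comm R1, sup_comm R3, e2, inf_comm R3, h13, sup_bot_eq]
      exact sup_eq_left.2 hSD
  by_cases hT2b : T2 = ⊥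
  · left
    have hDS : D = S := by rw [← hST2, hT2b, sup_bot_eq]
    rw [hDS] at hp0D
    have e2 := i2 _ _ (z2 _ hp0D) r2
    have e3 := i3 _ _ (z3 _ hp0D) r3
    rw [hSR2] at e2
    rw [hSR3] at e3
    exact c23 _ e2 e3
  have hST2i : S ⊓ T2 = ⊥ := le_bot_iff.1 (hSR2 ▸ inf_le_inf_left _ inf_le_left)
  have hST3i : S ⊓ T3 = ⊥ := le_bot_iff.1 (hSR3 ▸ inf_le_inf_left _ inf_le_left)
  have hTT : T2 ⊓ T3 = ⊥ := le_bot_iff.1 (h23 ▸ inf_le_inf inf_le_left inf_le_left)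
  have cS : (⊥ : N) ⋖ S := bot_covBy_iff.2 hS
  have cT3 : T3 ⋖ D := by
    rw [← hST3]
    exact covBy_sup_of_inf_covBy_left (hST3i ▸ cS)
  have cT2 : T2 ⋖ D := by
    rw [← hST2]
    exact covBy_sup_of_inf_covBy_left (hST2i ▸ cS)
  have hT2D : T2 ≤ D := cT2.le
  have hT3D : T3 ≤ D := cT3.le
  have hsup : T2 ⊔ T3 = D := by
    rcases (cT3.wcovBy.eq_or_eq (le_sup_right : T3 ≤ T2 ⊔ T3) (sup_le hT2D hT3D)) with h | h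
    · exfalso
      apply hT2b
      have : T2 ≤ T3 := sup_eq_right.1 h
      rw [← inf_eq_left.2 this, hTT]
    · exact h
  have aT2 : IsAtom T2 := by
    rw [← bot_covBy_iff, ← hTT]
    rw [← hsup] at cT3
    exact inf_covBy_of_covBy_sup_right cT3
  have aT3 : IsAtom T3 := by
    rw [← bot_covBy_iff, ← hTT]
    rw [← hsup] at cT2
    exact inf_covBy_of_covBy_sup_left cT2
  have pS : p1 S := by
    have := i1 _ _ (z1 _ hp0D) r1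
    have e : D ⊓ R1 = S := by
      rw [← hST2, sup_inf_assoc_of_le T2 hSR]
      have : T2 ⊓ R1 ≤ ⊥ := by
        rw [← h12, inf_comm]
        exact inf_le_inf_left _ inf_le_left
      rw [le_bot_iff.1 this, sup_bot_eq]
    rwa [e] at this
  have pT2 : p2 T2 := by
    have := i2 _ _ (z2 _ hp0D) r2
    have e : D ⊓ R2 = T2 := by
      rw [← hST2, sup_comm, sup_inf_assoc_of_le S inf_le_left, hSR2, sup_bot_eq]
    rwa [e] at this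
  have pT3 : p3 T3 := by
    have := i3 _ _ (z3 _ hp0D) r3
    have e : D ⊓ R3 = T3 := by
      rw [← hST3, sup_comm, sup_inf_assoc_of_le S inf_le_left, hSR3, sup_bot_eq]
    rwa [e] at this
  by_cases hU : ∀ U, IsAtom U → U ≤ D
  · right
    exact ⟨S, T2, T3, D, hS, aT2, aT3, hST2, hST3, hsup, hST2i, hST3i, hTT, pS, pT2, pT3, hU⟩
  · left
    push Not at hU
    obtain ⟨U, hUa, hUD⟩ := hU
    have hUDi : U ⊓ D = ⊥ := by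
      rcases hUa.le_iff.1 (inf_le_left : U ⊓ D ≤ U) with h | h
      · exact h
      · exact absurd (inf_eq_left.1 h) hUD
    have hp0U : p0 U := IH U (S ⊔ U) (T2 ⊔ U) (T3 ⊔ U) hUa.1
      (lat_aux hSD hT2D hST2i hUDi) (lat_aux hSD hT3D hST3i hUDi) (lat_aux hT2D hT3D hTT hUDi)
      (m1 _ _ le_sup_left pS) (m2 _ _ le_sup_left pT2) (m3 _ _ le_sup_left pT3)
    have := i0 _ _ hp0U hp0D
    rwa [hUDi] at this

end Pool.Agent.Formn
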